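import Pool.Agent.helper74.VD.SpecI
import Pool.Agent.helper80.VD.SpecF

/-!
# Project VD (MP_07c750_an): row AMVI, invariance of the volume and of the Laplace-Beltrami operator
-/

set_option autoImplicit false

open scoped ContDiff Topology InnerProductSpace ComplexConjugate ENNReal
open MeasureTheory Filter Set

namespace Pool.Agent.VD

noncomputable section

/-- the determinant in the standard basis -/
lemma AMVI_det {d : ℕ} (A : V d →L[ℝ] V d) :
    A.det = (Matrix.of fun i j : Fin d => A (EuclideanSpace.single j 1) i).det := by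
  have h : A.det = LinearMap.det (A : V d →ₗ[ℝ] V d) := rfl
  rw [h, ← LinearMap.det_toMatrix (EuclideanSpace.basisFun (Fin d) ℝ).toBasis]
  congr 1

lemma AMVI_expand {d : ℕ} (u : V d) : u = ∑ i : Fin d, u i • EuclideanSpace.single i (1 : ℝ) := by
  ext j
  simp [Finset.sum_apply, Pi.single_apply]

lemma AMVI_detpos {d : ℕ} (A : V d →L[ℝ] V d) (hs : ∀ u v, ⟪A u, v⟫_ℝ = ⟪u, A v⟫_ℝ)
    (hp : ∀ u, u ≠ 0 → 0 < ⟪A u, u⟫_ℝ) : 0 < A.det := by
  rw [AMVI_det]
  apply Matrix.PosDef.det_pos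
  have hij : ∀ i j : Fin d, A (EuclideanSpace.single j 1) i =
      ⟪EuclideanSpace.single i (1 : ℝ), A (EuclideanSpace.single j 1)⟫_ℝ := fun i j => by
    rw [EuclideanSpace.inner_single_left]; simp
  apply Matrix.PosDef.of_dotProduct_mulVec_pos
  · ext i j
    simp only [Matrix.conjTranspose_apply, Matrix.of_apply, star_trivial]
    rw [hij, hij, ← hs, real_inner_comm]
  · intro x hx
    set u : V d := WithLp.toLp 2 x with hu
    have hu0 : u ≠ 0 := by
      intro h
      apply hx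
      have := congrArg (WithLp.ofLp) h
      simpa [hu] using this
    have h1 := hp u hu0
    have h2 : ⟪A u, u⟫_ℝ = star x ⬝ᵥ ((Matrix.of fun i j : Fin d => A (EuclideanSpace.single j 1) i).mulVec x) := by
      have h3 : A u = ∑ j : Fin d, x j • A (EuclideanSpace.single j 1) := by
        conv_lhs => rw [AMVI_expand u]
        rw [map_sum]
        refine Finset.sum_congr rfl fun j _ => ?_
        rw [map_smul]
      rw [h3, EuclideanSpace.inner_eq_star_dotProduct]
      simp only [dotProduct, Matrix.mulVec, Matrix.of_apply, star_trivial, Pi.star_apply]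
      refine Finset.sum_congr rfl fun i _ => ?_
      simp only [hu]
      congr 1
      simp [Finset.sum_apply, mul_comm]
    rw [← h2]
    exact h1

lemma AMVI_detsmooth {d : ℕ} (G : V d → V d →L[ℝ] V d) (hG : ContDiff ℝ ∞ G) :
    ContDiff ℝ ∞ fun x => (G x).det := by
  simp only [AMVI_det, Matrix.det_apply]
  refine ContDiff.sum fun σ _ => ?_
  refine ContDiff.const_smul _ ?_
  refine contDiff_prod fun i _ => ?_
  simp only [Matrix.of_apply]
  have h1 : ContDiff ℝ ∞ fun x => G x (EuclideanSpace.single i 1) := hG.clm_apply contDiff_const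
  exact (contDiff_euclidean.mp h1) (σ i)

lemma AMVI_dens {d : ℕ} (G : V d → V d →L[ℝ] V d) (hG : IsMetric G) :
    ContDiff ℝ ∞ (dens G) ∧ ∀ x, 0 < dens G x := by
  have hp : ∀ x, 0 < (G x).det := fun x => AMVI_detpos (G x) (hG.symm x) (hG.pos x)
  refine ⟨?_, fun x => Real.sqrt_pos.mpr (hp x)⟩
  exact (AMVI_detsmooth G hG.smooth).sqrt fun x => (hp x).ne'

lemma AMVI_countable {d : ℕ} {Γ : Type} [Group Γ] [MulAction Γ (V d)] {K : Set (V d)}
    (hK : FdK Γ K) : Countable Γ := by
  rw [← Set.countable_univ_iff]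
  have h : (Set.univ : Set Γ) ⊆ ⋃ n : ℕ, {γ : Γ | ∃ x ∈ Metric.closedBall (0 : V d) n, γ • x ∈ Metric.closedBall (0 : V d) n} := by
    intro γ _
    obtain ⟨n, hn⟩ := exists_nat_ge ‖γ • (0 : V d)‖
    refine Set.mem_iUnion.mpr ⟨n, 0, ?_, ?_⟩
    · simp
    · simpa using hn
  refine Set.Countable.mono h (Set.countable_iUnion fun n => ?_)
  exact (hK.proper _ (isCompact_closedBall _ _)).countable

lemma AMVI_det_isom {d : ℕ} (G H : V d →L[ℝ] V d) (L : V d →L[ℝ] V d)
    (h : ∀ u v, ⟪H (L u), L v⟫_ℝ = ⟪G u, v⟫_ℝ) : G.det = L.det ^ 2 * H.det := by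
  have h1 : G = (ContinuousLinearMap.adjoint L).comp (H.comp L) := by
    ext1 u
    apply ext_inner_right ℝ
    intro v
    rw [← h u v, ContinuousLinearMap.comp_apply, ContinuousLinearMap.adjoint_inner_left,
      ContinuousLinearMap.comp_apply]
  have h2 : (ContinuousLinearMap.adjoint L).det = L.det := by
    rw [AMVI_det, AMVI_det L, ← Matrix.det_transpose]
    congr 1
    ext i j
    simp only [Matrix.transpose_apply, Matrix.of_apply]
    have h3 : ∀ (A : V d →L[ℝ] V d) (i j : Fin d), A (EuclideanSpace.single j 1) i =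
      ⟪EuclideanSpace.single i (1 : ℝ), A (EuclideanSpace.single j 1)⟫_ℝ := fun A i j => by
      rw [EuclideanSpace.inner_single_left]; simp
    rw [h3, h3, ContinuousLinearMap.adjoint_inner_right, real_inner_comm]
  have h4 : ∀ A B : V d →L[ℝ] V d, (A.comp B).det = A.det * B.det := fun A B =>
    LinearMap.det_comp (A : V d →ₗ[ℝ] V d) (B : V d →ₗ[ℝ] V d)
  rw [h1, h4, h4, h2]
  ring

lemma AMVI_densdet {d : ℕ} {Γ : Type} [Group Γ] [MulAction Γ (V d)] (G : V d → V d →L[ℝ] V d)
    (hi : ∀ (γ : Γ) (x u v : V d), ⟪G (γ • x) (fderiv ℝ (fun y : V d => γ • y) x u), fderiv ℝ (fun y : V d => γ • y) x v⟫_ℝ = ⟪G x u, v⟫_ℝ)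
    (γ : Γ) (x : V d) : dens G (γ • x) * |(fderiv ℝ (fun y : V d => γ • y) x).det| = dens G x := by
  have h := AMVI_det_isom (G x) (G (γ • x)) _ (hi γ x)
  unfold dens
  rw [h, Real.sqrt_mul (sq_nonneg _), Real.sqrt_sq_eq_abs, mul_comm]

lemma AMVI_mp {d : ℕ} {Γ : Type} [Group Γ] [MulAction Γ (V d)] (G : V d → V d →L[ℝ] V d)
    (hs : ∀ γ : Γ, ContDiff ℝ ∞ fun x : V d => γ • x)
    (hi : ∀ (γ : Γ) (x u v : V d), ⟪G (γ • x) (fderiv ℝ (fun y : V d => γ • y) x u), fderiv ℝ (fun y : V d => γ • y) x v⟫_ℝ = ⟪G x u, v⟫_ℝ)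
    (γ : Γ) : MeasurePreserving (fun x : V d => γ • x) (mv G) (mv G) := by
  have hm : Measurable (fun x : V d => γ • x) := (hs γ).continuous.measurable
  refine ⟨hm, ?_⟩
  ext T hT
  rw [Measure.map_apply hm hT]
  unfold mv
  rw [withDensity_apply _ (hm hT), withDensity_apply _ hT]
  have himg : (fun x : V d => γ • x) '' ((fun x : V d => γ • x) ⁻¹' T) = T :=
    Set.image_preimage_eq T (MulAction.surjective γ)
  have h1 := lintegral_image_eq_lintegral_abs_det_fderiv_mul (volume : Measure (V d)) (hm hT)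
    (f := fun x : V d => γ • x) (f' := fun x => fderiv ℝ (fun y : V d => γ • y) x)
    (fun x _ => (((hs γ).differentiable (by simp)) x).hasFDerivAt.hasFDerivWithinAt)
    ((MulAction.injective γ).injOn) (fun x => ENNReal.ofReal (dens G x))
  rw [himg] at h1
  rw [h1]
  refine lintegral_congr fun x => ?_
  rw [← ENNReal.ofReal_mul (abs_nonneg _), mul_comm, AMVI_densdet G hi γ x]

lemma AMVI_integral {d : ℕ} (G : V d → V d →L[ℝ] V d) (hc : Continuous (dens G))
    (hp : ∀ x, 0 < dens G x) (E : Type) [NormedAddCommGroup E] [NormedSpace ℝ E] (f : V d → E) :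
    ∫ x, f x ∂mv G = ∫ x, dens G x • f x := by
  unfold mv
  have h1 : (fun x => ENNReal.ofReal (dens G x)) = fun x => ((Real.toNNReal (dens G x) : NNReal) : ENNReal) := rfl
  rw [h1, integral_withDensity_eq_integral_smul (hc.measurable.real_toNNReal)]
  refine integral_congr_ae (Filter.Eventually.of_forall fun x => ?_)
  simp only [NNReal.smul_def, Real.coe_toNNReal _ (hp x).le]

lemma AMVI_fin {d : ℕ} (G : V d → V d →L[ℝ] V d) (hc : Continuous (dens G)) (S : Set (V d))
    (hS : IsCompact S) : mv G S < ⊤ := by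
  unfold mv
  rw [withDensity_apply _ hS.measurableSet]
  have h : IntegrableOn (dens G) S volume := hc.continuousOn.integrableOn_compact hS
  exact Integrable.lintegral_lt_top h

/-- the pairing of the differentials -/
def AMVI_B {d : ℕ} (G : V d → V d →L[ℝ] V d) (φ : V d → ℂ) (χ : V d → ℝ) (x : V d) : ℂ :=
  ∑ i : Fin d, fderiv ℝ χ x (EuclideanSpace.single i 1) • fderiv ℝ φ x (IG G x (EuclideanSpace.single i 1))

/-- the flux -/
def AMVI_F {d : ℕ} (G : V d → V d →L[ℝ] V d) (φ : V d → ℂ) (i : Fin d) (y : V d) : ℂ :=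
  ((dens G y : ℝ) : ℂ) * fderiv ℝ φ y ((G y).inverse (EuclideanSpace.single i 1))

lemma AMVI_F_smooth {d : ℕ} (G : V d → V d →L[ℝ] V d) (hd : ContDiff ℝ ∞ (dens G))
    (hI : ContDiff ℝ ∞ (IG G)) (φ : V d → ℂ) (hφ : ContDiff ℝ 2 φ) (i : Fin d) :
    ContDiff ℝ 1 (AMVI_F G φ i) := by
  have h1 : ContDiff ℝ 1 fun y => ((dens G y : ℝ) : ℂ) :=
    Complex.ofRealCLM.contDiff.comp (hd.of_le (by exact_mod_cast le_top))
  have h2 : ContDiff ℝ 1 (fderiv ℝ φ) := hφ.fderiv_right (by norm_num)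
  have h3 : ContDiff ℝ 1 fun y => IG G y (EuclideanSpace.single i 1) :=
    (hI.of_le (by exact_mod_cast le_top)).clm_apply contDiff_const
  exact h1.mul (h2.clm_apply h3)

lemma AMVI_lap {d : ℕ} (G : V d → V d →L[ℝ] V d) (hp : ∀ x, 0 < dens G x) (φ : V d → ℂ) (x : V d) :
    dens G x • lap G φ x = ∑ i : Fin d, fderiv ℝ (AMVI_F G φ i) x (EuclideanSpace.single i 1) := by
  unfold lap AMVI_F
  rw [Complex.real_smul, ← mul_assoc, ← Complex.ofReal_mul, mul_inv_cancel₀ (hp x).ne',
    Complex.ofReal_one, one_mul]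

lemma AMVI_lap_cont {d : ℕ} (G : V d → V d →L[ℝ] V d) (hd : ContDiff ℝ ∞ (dens G))
    (hp : ∀ x, 0 < dens G x) (hI : ContDiff ℝ ∞ (IG G)) (φ : V d → ℂ) (hφ : ContDiff ℝ 2 φ) :
    Continuous fun x => dens G x • lap G φ x := by
  simp only [AMVI_lap G hp φ]
  refine continuous_finsetSum _ fun i _ => ?_
  exact ((AMVI_F_smooth G hd hI φ hφ i).continuous_fderiv one_ne_zero).clm_apply continuous_const

lemma AMVI_weak {d : ℕ} (G : V d → V d →L[ℝ] V d) (hd : ContDiff ℝ ∞ (dens G))
    (hp : ∀ x, 0 < dens G x) (hI : ContDiff ℝ ∞ (IG G)) (φ : V d → ℂ) (hφ : ContDiff ℝ 2 φ)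
    (χ : V d → ℝ) (hχ : ContDiff ℝ ∞ χ) (hc : HasCompactSupport χ) :
    ∫ x, χ x • (dens G x • lap G φ x) = - ∫ x, dens G x • AMVI_B G φ χ x := by
  have hF := AMVI_F_smooth G hd hI φ hφ
  have hFd : ∀ i, Continuous fun x => fderiv ℝ (AMVI_F G φ i) x (EuclideanSpace.single i 1) :=
    fun i => ((hF i).continuous_fderiv one_ne_zero).clm_apply continuous_const
  have hχ1 : ContDiff ℝ 1 χ := hχ.of_le (by exact_mod_cast le_top)
  have hχd : ∀ i : Fin d, Continuous fun x => fderiv ℝ χ x (EuclideanSpace.single i 1) :=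
    fun i => (hχ1.continuous_fderiv one_ne_zero).clm_apply continuous_const
  have hcd : ∀ i : Fin d, HasCompactSupport fun x => fderiv ℝ χ x (EuclideanSpace.single i 1) :=
    fun i => hc.fderiv_apply (𝕜 := ℝ) (v := EuclideanSpace.single i 1)
  have hi1 : ∀ i : Fin d, Integrable fun x => χ x • fderiv ℝ (AMVI_F G φ i) x (EuclideanSpace.single i 1) :=
    fun i => (hχ.continuous.smul (hFd i)).integrable_of_hasCompactSupport hc.smul_right
  have hi2 : ∀ i : Fin d, Integrable fun x => fderiv ℝ χ x (EuclideanSpace.single i 1) • AMVI_F G φ i x :=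
    fun i => ((hχd i).smul (hF i).continuous).integrable_of_hasCompactSupport (hcd i).smul_right
  have hi3 : ∀ i : Fin d, Integrable fun x => χ x • AMVI_F G φ i x :=
    fun i => (hχ.continuous.smul (hF i).continuous).integrable_of_hasCompactSupport hc.smul_right
  simp only [AMVI_lap G hp φ, Finset.smul_sum]
  rw [integral_finsetSum _ fun i _ => hi1 i]
  have hparts : ∀ i : Fin d, ∫ x, χ x • fderiv ℝ (AMVI_F G φ i) x (EuclideanSpace.single i 1) =
      - ∫ x, fderiv ℝ χ x (EuclideanSpace.single i 1) • AMVI_F G φ i x := fun i =>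
    integral_smul_fderiv_eq_neg_fderiv_smul_of_integrable (hi2 i) (hi1 i) (hi3 i)
      (fun x _ => hχ1.differentiable one_ne_zero x) (fun x _ => (hF i).differentiable one_ne_zero x)
  rw [Finset.sum_congr rfl fun i _ => hparts i, Finset.sum_neg_distrib, ← integral_finsetSum _ fun i _ => hi2 i]
  congr 1
  refine integral_congr_ae (Filter.Eventually.of_forall fun x => ?_)
  simp only [AMVI_B, AMVI_F, IG, Finset.smul_sum]
  refine Finset.sum_congr rfl fun i _ => ?_
  simp only [Complex.real_smul]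
  ring

lemma AMVI_riesz {d : ℕ} (α : V d →L[ℝ] ℂ) (T : V d →L[ℝ] V d) (c : V d) :
    ∑ i : Fin d, ⟪c, EuclideanSpace.single i (1 : ℝ)⟫_ℝ • α (T (EuclideanSpace.single i 1)) = α (T c) := by
  conv_rhs => rw [AMVI_expand c]
  rw [map_sum, map_sum]
  refine Finset.sum_congr rfl fun i _ => ?_
  rw [map_smul, map_smul, EuclideanSpace.inner_single_right]
  simp

lemma AMVI_nat {d : ℕ} {Γ : Type} [Group Γ] [MulAction Γ (V d)] (G : V d → V d →L[ℝ] V d)
    (hG : ∀ x u, IG G x (G x u) = u ∧ G x (IG G x u) = u)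
    (hs : ∀ γ : Γ, ContDiff ℝ ∞ fun x : V d => γ • x)
    (hi : ∀ (γ : Γ) (x u v : V d), ⟪G (γ • x) (fderiv ℝ (fun y : V d => γ • y) x u), fderiv ℝ (fun y : V d => γ • y) x v⟫_ℝ = ⟪G x u, v⟫_ℝ)
    (hinv : ∀ (γ : Γ) (x u : V d), fderiv ℝ (fun y : V d => γ • y) x (fderiv ℝ (fun y : V d => γ⁻¹ • y) (γ • x) u) = u)
    (φ : V d → ℂ) (hφ : ContDiff ℝ 2 φ) (χ : V d → ℝ) (hχ : ContDiff ℝ ∞ χ) (γ : Γ) (x : V d) :
    AMVI_B G (fun y => φ (γ • y)) (fun y => χ (γ • y)) x = AMVI_B G φ χ (γ • x) := by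
  set L := fderiv ℝ (fun y : V d => γ • y) x with hL
  have hdL : HasFDerivAt (fun y : V d => γ • y) L x :=
    (((hs γ).differentiable (by simp)) x).hasFDerivAt
  have h1 : fderiv ℝ (fun y => φ (γ • y)) x = (fderiv ℝ φ (γ • x)).comp L :=
    (((hφ.differentiable (by simp)) (γ • x)).hasFDerivAt.comp x hdL).fderiv
  have h2 : fderiv ℝ (fun y => χ (γ • y)) x = (fderiv ℝ χ (γ • x)).comp L :=
    (((hχ.differentiable (by simp)) (γ • x)).hasFDerivAt.comp x hdL).fderiv
  set b : V d := (InnerProductSpace.toDual ℝ (V d)).symm (fderiv ℝ χ (γ • x)) with hb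
  have hb1 : ∀ v, fderiv ℝ χ (γ • x) v = ⟪b, v⟫_ℝ := fun v => by
    rw [hb, InnerProductSpace.toDual_symm_apply]
  have hr : AMVI_B G φ χ (γ • x) = fderiv ℝ φ (γ • x) (IG G (γ • x) b) := by
    unfold AMVI_B
    simp only [hb1]
    exact AMVI_riesz _ _ _
  have hl : AMVI_B G (fun y => φ (γ • y)) (fun y => χ (γ • y)) x =
      fderiv ℝ φ (γ • x) (L (IG G x (ContinuousLinearMap.adjoint L b))) := by
    unfold AMVI_B
    rw [h1, h2]
    simp only [ContinuousLinearMap.comp_apply, hb1]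
    have h3 : ∀ i : Fin d, ⟪b, L (EuclideanSpace.single i 1)⟫_ℝ =
        ⟪ContinuousLinearMap.adjoint L b, EuclideanSpace.single i 1⟫_ℝ := fun i => by
      rw [ContinuousLinearMap.adjoint_inner_left]
    simp only [h3]
    exact AMVI_riesz (fderiv ℝ φ (γ • x)) (L.comp (IG G x)) _
  rw [hl, hr]
  congr 1
  set w := IG G (γ • x) b with hw
  have hb2 : G (γ • x) w = b := (hG (γ • x) b).2
  set c := fderiv ℝ (fun y : V d => γ⁻¹ • y) (γ • x) w with hc
  have hLc : L c = w := hinv γ x w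
  have h4 : ContinuousLinearMap.adjoint L b = G x c := by
    apply ext_inner_right ℝ
    intro v
    rw [ContinuousLinearMap.adjoint_inner_left, ← hi γ x c v, ← hL, hLc, hb2]
  rw [h4, (hG x c).1, hLc]

lemma AMVI_inv {d : ℕ} {Γ : Type} [Group Γ] [MulAction Γ (V d)] (G : V d → V d →L[ℝ] V d)
    (hd : ContDiff ℝ ∞ (dens G)) (hp : ∀ x, 0 < dens G x) (hI : ContDiff ℝ ∞ (IG G))
    (hG : ∀ x u, IG G x (G x u) = u ∧ G x (IG G x u) = u)
    (hs : ∀ γ : Γ, ContDiff ℝ ∞ fun x : V d => γ • x)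
    (hi : ∀ (γ : Γ) (x u v : V d), ⟪G (γ • x) (fderiv ℝ (fun y : V d => γ • y) x u), fderiv ℝ (fun y : V d => γ • y) x v⟫_ℝ = ⟪G x u, v⟫_ℝ)
    (hinv : ∀ (γ : Γ) (x u : V d), fderiv ℝ (fun y : V d => γ • y) x (fderiv ℝ (fun y : V d => γ⁻¹ • y) (γ • x) u) = u)
    (φ : V d → ℂ) (γ : Γ) (x : V d) (hφ : ContDiff ℝ 2 φ) :
    lap G (fun y => φ (γ • y)) x = lap G φ (γ • x) := by
  have hφγ : ContDiff ℝ 2 fun y => φ (γ • y) := hφ.comp (contDiff_infty.mp (hs γ) 2)
  have hc1 := AMVI_lap_cont G hd hp hI _ hφγ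
  have hc2 := AMVI_lap_cont G hd hp hI φ hφ
  have hc3 : Continuous (lap G φ) := by
    have h : lap G φ = fun x => (dens G x)⁻¹ • (dens G x • lap G φ x) := by
      funext x
      rw [smul_smul, inv_mul_cancel₀ (hp x).ne', one_smul]
    rw [h]
    exact (hd.continuous.inv₀ fun x => (hp x).ne').smul hc2
  have hc4 : Continuous fun x => dens G x • lap G φ (γ • x) :=
    hd.continuous.smul (hc3.comp (hs γ).continuous)
  let e : V d ≃ₜ V d :=
    { toFun := fun x => γ • x
      invFun := fun x => γ⁻¹ • x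
      left_inv := inv_smul_smul γ
      right_inv := smul_inv_smul γ
      continuous_toFun := (hs γ).continuous
      continuous_invFun := (hs γ⁻¹).continuous }
  have hmp := AMVI_mp G hs hi γ
  have hme : MeasurableEmbedding (fun x : V d => γ • x) := e.measurableEmbedding
  have hkey : (fun x => dens G x • lap G (fun y => φ (γ • y)) x) = fun x => dens G x • lap G φ (γ • x) := by
    have hae : (fun x => dens G x • lap G (fun y => φ (γ • y)) x) =ᵐ[(volume : Measure (V d))] fun x => dens G x • lap G φ (γ • x) := by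
      refine ae_eq_of_integral_contDiff_smul_eq hc1.locallyIntegrable hc4.locallyIntegrable ?_
      intro g hg hgc
      set g' : V d → ℝ := fun y => g (γ⁻¹ • y) with hg'
      have hg's : ContDiff ℝ ∞ g' := hg.comp (hs γ⁻¹)
      have hg'c : HasCompactSupport g' := hgc.comp_homeomorph e.symm
      have hgg : g = fun x => g' (γ • x) := by
        funext x
        rw [hg']
        exact (congrArg g (inv_smul_smul γ x)).symm
      rw [AMVI_weak G hd hp hI _ hφγ g hg hgc]
      calc - ∫ x, dens G x • AMVI_B G (fun y => φ (γ • y)) g x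
          = - ∫ x, dens G x • AMVI_B G φ g' (γ • x) := by
            congr 1
            refine integral_congr_ae (Filter.Eventually.of_forall fun x => ?_)
            have := AMVI_nat G hG hs hi hinv φ hφ g' hg's γ x
            rw [← hgg] at this
            simp only [this]
        _ = - ∫ x, AMVI_B G φ g' (γ • x) ∂mv G := by
            rw [AMVI_integral G hd.continuous hp ℂ]
        _ = - ∫ y, AMVI_B G φ g' y ∂mv G := by
            rw [hmp.integral_comp hme]
        _ = - ∫ y, dens G y • AMVI_B G φ g' y := by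
            rw [AMVI_integral G hd.continuous hp ℂ]
        _ = ∫ y, g' y • (dens G y • lap G φ y) := (AMVI_weak G hd hp hI φ hφ g' hg's hg'c).symm
        _ = ∫ y, dens G y • (g' y • lap G φ y) :=
            integral_congr_ae (Filter.Eventually.of_forall fun y => smul_comm _ _ _)
        _ = ∫ y, g' y • lap G φ y ∂mv G := (AMVI_integral G hd.continuous hp ℂ _).symm
        _ = ∫ x, g' (γ • x) • lap G φ (γ • x) ∂mv G := (hmp.integral_comp hme fun y => g' y • lap G φ y).symm
        _ = ∫ x, dens G x • (g' (γ • x) • lap G φ (γ • x)) := AMVI_integral G hd.continuous hp ℂ _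
        _ = ∫ x, g x • (dens G x • lap G φ (γ • x)) := by
            refine integral_congr_ae (Filter.Eventually.of_forall fun x => ?_)
            have h := congrFun hgg x
            simp only [← h]
            exact smul_comm _ _ _
    exact (Continuous.ae_eq_iff_eq volume hc1 hc4).mp hae
  have h := congrFun hkey x
  have h2 := congrArg (fun z => (dens G x)⁻¹ • z) h
  simpa only [smul_smul, inv_mul_cancel₀ (hp x).ne', one_smul] using h2

theorem AMVI_proof (hGIN : GIN_stmt) (hGLF : GLF_stmt) : AMVI_stmt := by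
  intro d Γ _ _ K k B G hK hC
  have hG := hC.met
  obtain ⟨hd, hp⟩ := AMVI_dens G hG
  obtain ⟨hI1, -, -, hI, -⟩ := hGIN d G hG
  obtain ⟨-, -, -, hinv, -⟩ := hGLF d Γ hK.smooth
  refine ⟨AMVI_countable hK, hd, hp, ?_, AMVI_fin G hd.continuous, AMVI_mp G hK.smooth hC.isom,
    AMVI_densdet G hC.isom, fun E _ _ f => AMVI_integral G hd.continuous hp E f, fun φ γ x hφ =>
    AMVI_inv G hd hp hI hI1 hK.smooth hC.isom (fun γ x u => (hinv γ x u).2) φ γ x hφ⟩
  exact SigmaFinite.withDensity fun x => Real.toNNReal (dens G x)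

end

end Pool.Agent.VD
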