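import Pool.Agent.helper1.VD.SpecA2
import Pool.Agent.helper32.VD.AMVI

/-!
# Project VD (MP_07c750_an): row AWP1, beams and flat packets are packets
-/

set_option autoImplicit false

open scoped ContDiff Topology InnerProductSpace ComplexConjugate ENNReal
open MeasureTheory Filter Set

namespace Pool.Agent.VD

open Pool.Agent.VQ (CH)

noncomputable section

variable {d : ℕ}

lemma AWP1_mono {K : ℕ} {N N' m m' : ℝ} {A : V d → ℂ} {v : V d} (hN : 0 ≤ N) (hNN : N ≤ N') (hm : 0 ≤ m')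
    (hmm : m ≤ m') (h : WS K N m A v) : WS K N' m' A v := by
  refine ⟨h.1, fun k hk => (h.2 k hk).trans ?_⟩
  calc m * N ^ k ≤ m' * N ^ k := mul_le_mul_of_nonneg_right hmm (pow_nonneg hN k)
    _ ≤ m' * N' ^ k := mul_le_mul_of_nonneg_left (pow_le_pow_left₀ hN hNN k) hm

lemma AWP1_const {K : ℕ} {N m : ℝ} {A : V d → ℂ} {v : V d} (c : ℂ) (h : WS K N m A v) :
    WS K N (‖c‖ * m) (fun w => c * A w) v := by
  refine ⟨contDiffAt_const.mul h.1, fun k hk => ?_⟩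
  have h1 : iteratedFDeriv ℝ k (fun w => c * A w) v = c • iteratedFDeriv ℝ k A v := by
    have h2 : (fun w => c * A w) = c • A := rfl
    rw [h2]
    exact iteratedFDeriv_const_smul_apply (h.1.of_le (by exact_mod_cast le_top))
  rw [h1, norm_smul, mul_assoc]
  exact mul_le_mul_of_nonneg_left (h.2 k hk) (norm_nonneg c)

/-- the factor `dens^(-1/2)` -/
def AWP1_D (G : V d → V d →L[ℝ] V d) (x v : V d) : ℂ := (((Real.sqrt (dens G (x + v)))⁻¹ : ℝ) : ℂ)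

lemma AWP1_Ds (G : V d → V d →L[ℝ] V d) (hG : IsMetric G) :
    ContDiff ℝ ∞ fun y => (Real.sqrt (dens G y))⁻¹ := by
  obtain ⟨hd, hp⟩ := AMVI_dens G hG
  exact (hd.sqrt fun x => (hp x).ne').inv fun x => (Real.sqrt_pos.mpr (hp x)).ne'

lemma AWP1_Dsm (G : V d → V d →L[ℝ] V d) (hG : IsMetric G) (x : V d) : ContDiff ℝ ∞ (AWP1_D G x) :=
  Complex.ofRealCLM.contDiff.comp ((AWP1_Ds G hG).comp (contDiff_const.add contDiff_id))

lemma AWP1_Dw (G : V d → V d →L[ℝ] V d) (hG : IsMetric G) (K : ℕ) (C : ℝ) (x v : V d)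
    (h : ∀ m ≤ K, ‖iteratedFDeriv ℝ m (fun y => (Real.sqrt (dens G y))⁻¹) (x + v)‖ ≤ C) :
    WS K 1 C (AWP1_D G x) v := by
  refine ⟨(AWP1_Dsm G hG x).contDiffAt, fun k hk => ?_⟩
  set F : V d → ℝ := fun y => (Real.sqrt (dens G y))⁻¹ with hF
  have h1 : AWP1_D G x = Complex.ofRealLI ∘ (fun v => F (x + v)) := rfl
  have h2 : ContDiffAt ℝ (k : WithTop ℕ∞) (fun v => F (x + v)) v :=
    (((AWP1_Ds G hG).comp (contDiff_const.add contDiff_id)).of_le (by exact_mod_cast le_top)).contDiffAt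
  rw [h1, LinearIsometry.norm_iteratedFDeriv_comp_left Complex.ofRealLI h2 le_rfl,
    iteratedFDeriv_comp_add_left, one_pow, mul_one]
  exact h k hk

/-- the abstract form -/
lemma AWP1_core (hAWPK : AWPK_stmt) (K : ℕ) (R ζ η m : ℝ) (q : P d) (a0 : ℂ) (X E D f : V d → ℂ)
    (Cs C1 C2 C4 : ℝ) (hR : 1 ≤ R) (hζη : ζ ≤ η) (hη : 0 ≤ η) (hCs : 1 ≤ Cs) (h1 : 0 ≤ C1) (h2 : 0 ≤ C2) (h4 : 0 ≤ C4)
    (hprod : ∀ (N m1 m2 : ℝ) (A1 A2 : V d → ℂ) (v : V d), 1 ≤ N → 0 ≤ m1 → 0 ≤ m2 → WS K N m1 A1 v → WS K N m2 A2 v →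
      WS K N (Cs * m1 * m2) (fun w => A1 w * A2 w) v)
    (sX : ContDiff ℝ ∞ X) (sE : ContDiff ℝ ∞ E) (sD : ContDiff ℝ ∞ D)
    (hX0 : ∀ v, R ^ (-(1 / 2) + ζ) < ‖v‖ → X =ᶠ[𝓝 v] fun _ => 0)
    (hX : ∀ v, ‖v‖ ≤ R ^ (-(1 / 2) + ζ) → WS K (R ^ (1 / 2 + η)) C1 X v)
    (hE : ∀ v, ‖v‖ ≤ R ^ (-(1 / 2) + ζ) → WS K (R ^ (1 / 2 + η)) C2 E v)
    (hD : ∀ v, ‖v‖ ≤ R ^ (-(1 / 2) + ζ) → WS K (R ^ (1 / 2 + η)) C4 D v)
    (hm : ‖a0‖ * (Cs * (Cs * C1 * C2) * C4) ≤ m)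
    (hf : ∀ w, f w = Complex.exp (((R * ⟪q.2, w - q.1⟫_ℝ : ℝ) : ℂ) * Complex.I) *
      (a0 * (X (w - q.1) * E (w - q.1) * D (w - q.1)))) : Pk K η m R q f := by
  have hN : 1 ≤ R ^ (1 / 2 + η) := Real.one_le_rpow hR (by linarith)
  have hm0 : 0 ≤ m := le_trans (by positivity) hm
  refine (hAWPK d K R q hR).1 ζ η m (fun v => a0 * (X v * E v * D v)) f hζη hm0
    (contDiff_const.mul ((sX.mul sE).mul sD)) ?_ ?_ hf
  · intro v hv
    filter_upwards [hX0 v hv] with w hw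
    rw [hw, zero_mul, zero_mul, mul_zero]
  · intro v hv k hk
    have w1 := hprod _ _ _ _ _ v hN h1 h2 (hX v hv) (hE v hv)
    have w2 := hprod _ _ _ _ _ v hN (by positivity) h4 w1 (hD v hv)
    have w3 := AWP1_const a0 w2
    refine (w3.2 k hk).trans ?_
    exact mul_le_mul_of_nonneg_right hm (pow_nonneg (by linarith) k)

/-- the radius and the threshold -/
lemma AWP1_R0 (c ζ1 : ℝ) (hc : 1 ≤ c) (hζ : 0 < ζ1) : ∃ R0 : ℝ, 1 ≤ R0 ∧ ∀ R, R0 ≤ R → c ≤ R ^ ζ1 := by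
  refine ⟨c ^ (1 / ζ1), Real.one_le_rpow hc (by positivity), fun R hR => ?_⟩
  have h1 : (c ^ (1 / ζ1)) ^ ζ1 ≤ R ^ ζ1 := Real.rpow_le_rpow (by positivity) hR hζ.le
  rwa [← Real.rpow_mul (by linarith), one_div_mul_cancel hζ.ne', Real.rpow_one] at h1

lemma AWP1_qfI (v : V d) : qf (Complex.I • (1 : MC d)) v = Complex.I * ((‖v‖ ^ 2 : ℝ) : ℂ) := by
  unfold qf
  rw [EuclideanSpace.real_norm_sq_eq]
  push_cast
  rw [Finset.mul_sum]
  refine Finset.sum_congr rfl fun i _ => ?_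
  rw [Finset.sum_eq_single i]
  · rw [Matrix.smul_apply, Matrix.one_apply_eq, smul_eq_mul, mul_one]
    ring
  · intro j _ hj
    rw [Matrix.smul_apply, Matrix.one_apply_ne (Ne.symm hj), smul_zero, zero_mul]
  · intro h
    exact absurd (Finset.mem_univ i) h

lemma AWP1_WEn (R : ℝ) (M : MC d) (v : V d) : ‖WE R M v‖ = Real.exp (-(R / 2 * (qf M v).im)) := by
  unfold WE
  rw [Complex.norm_exp]
  congr 1
  simp only [Complex.mul_re, Complex.mul_im, Complex.I_re, Complex.I_im, Complex.ofReal_re, Complex.ofReal_im,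
    Complex.div_ofNat_re, Complex.div_ofNat_im]
  ring

lemma AWP1_pkt (G : V d → V d →L[ℝ] V d) (ch : ℝ → ℝ) (ζ R : ℝ) (p : P d) (w : V d) :
    pkt G ch ζ R p w = Complex.exp (((R * ⟪p.2, w - p.1⟫_ℝ : ℝ) : ℂ) * Complex.I) *
      (((cR d ch ζ R : ℝ) : ℂ) * (WX ch ζ R (w - p.1) * WE R (Complex.I • (1 : MC d)) (w - p.1) * AWP1_D G p.1 (w - p.1))) := by
  have hE : WE R (Complex.I • (1 : MC d)) (w - p.1) = ((Real.exp (-(R * ‖w - p.1‖ ^ 2 / 2)) : ℝ) : ℂ) := by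
    unfold WE
    rw [AWP1_qfI, Complex.ofReal_exp]
    congr 1
    push_cast
    have hI : Complex.I * Complex.I = -1 := Complex.I_mul_I
    linear_combination ((R : ℂ) * (‖w - p.1‖ : ℂ) ^ 2 / 2) * hI
  have hx : p.1 + (w - p.1) = w := by abel
  unfold pkt b0 WX AWP1_D
  rw [hE, hx]
  push_cast
  rw [div_eq_mul_inv]
  ring

theorem AWP1_proof (hABMA : ABMA_stmt) (hAWEQ : AWEQ_stmt) (hAWCT : AWCT_stmt) (hAWQF : AWQF_stmt)
    (hAWSY : AWSY_stmt) (hAWPK : AWPK_stmt) (hAHLD : AHLD_stmt) (hACNF : ACNF_stmt) (hABRD : ABRD_stmt) :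
    AWP1_stmt := by
  intro d Γ _ _ K k B r hK
  obtain ⟨Ca, hCa1, hA⟩ := hABMA d Γ K k B r hK
  obtain ⟨Cf, hCf1, hFl⟩ := hACNF d Γ K k B r 1 hK
  obtain ⟨Ch, hCh1, hH0⟩ := hAHLD d Γ K k B (max Cf r + 1) 0
  refine ⟨8 + Ca + Ch, by linarith, ?_⟩
  intro ch Kd e ζ ζ1 hch hRg
  obtain ⟨he, hζ, hζζ, hCe, hCζ⟩ := hRg
  have hζ1 : 0 < ζ1 := lt_of_lt_of_le hζ hζζ
  have hζ8 : ζ1 ≤ 1 / 8 := by nlinarith
  have heζ : e ≤ ζ1 := by nlinarith
  have heCa : e * Ca ≤ ζ1 := by nlinarith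
  obtain ⟨Cs, hCs1, hprod0, -, -⟩ := hAWSY d Kd
  obtain ⟨C1, hC11, hX⟩ := hAWCT d ch Kd hch
  obtain ⟨C2, hC21, hE⟩ := hAWQF d Kd
  obtain ⟨C4, hC41, hH⟩ := hAHLD d Γ K k B (max Cf r + 1) Kd
  obtain ⟨R1, hR11, hcR⟩ := hABRD d ch ζ hch hζ (by linarith)
  set c6 : ℝ := Cs * (Cs * C1 * C2) * C4 with hc6
  have hc60 : 0 ≤ c6 := by positivity
  obtain ⟨R2, hR21, hR2⟩ := AWP1_R0 (C2 * Ca + Ca * c6 + c6) ζ1 (by nlinarith [mul_nonneg (by linarith : (0:ℝ) ≤ Ca) hc60]) hζ1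
  refine ⟨max R1 R2, hR11.trans (le_max_left _ _), ?_⟩
  intro R t G Φ p Y0 P0 hR hOK hp hEp ht hLag
  have hRR1 : R1 ≤ R := (le_max_left _ _).trans hR
  have hRR2 : R2 ≤ R := (le_max_right _ _).trans hR
  have hR1 : 1 ≤ R := hR11.trans hRR1
  have hR0 : 0 < R := by linarith
  have hG := hOK.cls.met
  have hbig := hR2 R hRR2
  have hbig1 : C2 * Ca ≤ R ^ ζ1 := by nlinarith [mul_nonneg (by linarith : (0:ℝ) ≤ Ca) hc60]
  have hbig2 : Ca * c6 ≤ R ^ ζ1 := by nlinarith [mul_nonneg (by linarith : (0:ℝ) ≤ C2) (by linarith : (0:ℝ) ≤ Ca)]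
  have hbig3 : c6 ≤ R ^ ζ1 := by
    nlinarith [mul_nonneg (by linarith : (0:ℝ) ≤ C2) (by linarith : (0:ℝ) ≤ Ca), mul_nonneg (by linarith : (0:ℝ) ≤ Ca) hc60]
  have hbig4 : C2 ≤ R ^ ζ1 := by nlinarith
  set η : ℝ := (8 + Ca + Ch) * ζ1 with hη
  have hη10 : 10 * ζ1 ≤ η := by rw [hη]; nlinarith
  have hη0 : 0 ≤ η := by linarith
  set L : ℝ := R ^ e with hL
  have hL1 : 1 ≤ L := Real.one_le_rpow hR1 he
  obtain ⟨-, -, -, a4, -, a6, a7⟩ := hA G Φ p t L Y0 P0 hOK hp hEp ht hL1 hLag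
  -- the imaginary part
  have him : ∀ w : V d, 0 ≤ (qf (Mt Φ p Y0 P0 t) w).im := by
    intro w
    by_contra hneg
    push Not at hneg
    have h1 := a7 w
    have h2 : Ca * L ^ 2 * (qf (Mt Φ p Y0 P0 t) w).im < 0 := mul_neg_of_pos_of_neg (by positivity) hneg
    have h3 := sq_nonneg ‖w‖
    linarith
  -- sizes
  have hL2 : L ^ 2 ≤ R ^ (2 * ζ1) := by
    rw [hL, ← Real.rpow_natCast, ← Real.rpow_mul hR0.le]
    exact Real.rpow_le_rpow_of_exponent_le hR1 (by push_cast; linarith)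
  have hLCa : L ^ Ca ≤ R ^ ζ1 := by
    rw [hL, ← Real.rpow_mul hR0.le]
    exact Real.rpow_le_rpow_of_exponent_le hR1 heCa
  have hamp : ‖amp Φ p Y0 P0 t‖ ≤ Ca * R ^ ζ1 :=
    a4.trans (mul_le_mul_of_nonneg_left hLCa (by linarith))
  have hrad : ∀ z : ℝ, z ≤ ζ1 → R ^ (-(1 / 2) + z) ≤ 1 := fun z hz =>
    Real.rpow_le_one_of_one_le_of_nonpos hR1 (by linarith)
  have hham : Ham G p ≤ 2 := by
    have h1 := (abs_le.mp hEp).2
    unfold Ep at h1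
    linarith
  have hx : ‖(Φ t p).1‖ ≤ Cf := (hFl G Φ hOK p t hp hham ht).1
  have hN1 : 1 ≤ R ^ (1 / 2 + η) := Real.one_le_rpow hR1 (by linarith)
  have hNh : R ^ (1 / 2 : ℝ) ≤ R ^ (1 / 2 + η) := Real.rpow_le_rpow_of_exponent_le hR1 (by linarith)
  have hprod : ∀ (N m1 m2 : ℝ) (A1 A2 : V d → ℂ) (v : V d), 1 ≤ N → 0 ≤ m1 → 0 ≤ m2 → WS Kd N m1 A1 v → WS Kd N m2 A2 v →
      WS Kd N (Cs * m1 * m2) (fun w => A1 w * A2 w) v := fun N m1 m2 A1 A2 v h1 h2 h3 h4 h5 =>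
    (hprod0 N m1 m2 A1 A2 v h1 h2 h3 h4 h5).1
  -- the cut-off
  have hXw : ∀ z : ℝ, 0 ≤ z → z ≤ ζ1 → ∀ v : V d, WS Kd (R ^ (1 / 2 + η)) C1 (WX ch z R) v := by
    intro z hz0 hz v
    obtain ⟨x1, -, -, x4, -, -⟩ := hX z R hz0 (by linarith) hR1
    exact AWP1_mono (Real.rpow_nonneg hR0.le _) hNh (by linarith) le_rfl ⟨x1.contDiffAt, fun k hk => x4 k hk v⟩
  -- the density
  have hDw : ∀ x : V d, ‖x‖ ≤ max Cf r → ∀ v : V d, ‖v‖ ≤ 1 → WS Kd (R ^ (1 / 2 + η)) C4 (AWP1_D G x) v := by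
    intro x hx v hv
    refine AWP1_mono zero_le_one hN1 (by linarith) le_rfl (AWP1_Dw G hG Kd C4 x v fun m hm => ?_)
    have hxv : ‖x + v‖ ≤ max Cf r + 1 := (norm_add_le _ _).trans (by linarith)
    obtain ⟨-, -, -, -, hb⟩ := hH G hK hOK.cls
    exact ((hb (x + v) hxv).2.1 m hm).2.1
  have sqEx : ∀ M : MC d, (qf M (0 : V d)) = 0 := fun M => by simp [qf]
  -- smoothness of the Gaussian factor
  have hEs : ∀ M : MC d, ContDiff ℝ ∞ (WE R M : V d → ℂ) := by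
    intro M
    set m : ℝ := 1 + ∑ i, ∑ j, ‖M i j‖ with hm
    have hm1 : 1 ≤ m := by
      rw [hm]
      have : 0 ≤ ∑ i, ∑ j, ‖M i j‖ := Finset.sum_nonneg fun i _ => Finset.sum_nonneg fun j _ => norm_nonneg _
      linarith
    have hmij : ∀ i j, ‖M i j‖ ≤ m := by
      intro i j
      have h1 : ‖M i j‖ ≤ ∑ j, ‖M i j‖ := Finset.single_le_sum (f := fun j => ‖M i j‖) (fun j _ => norm_nonneg _) (Finset.mem_univ j)
      have h2 : ∑ j, ‖M i j‖ ≤ ∑ i, ∑ j, ‖M i j‖ :=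
        Finset.single_le_sum (f := fun i => ∑ j, ‖M i j‖) (fun i _ => Finset.sum_nonneg fun j _ => norm_nonneg _) (Finset.mem_univ i)
      linarith
    exact (hE R m 0 M 0 hR1 hm1 le_rfl hmij (by rw [norm_zero]; positivity)).1
  refine ⟨?_, ?_, ?_⟩
  · -- beams
    refine AWP1_core hAWPK Kd R ζ1 η (R ^ η) (Φ t p)
      (amp Φ p Y0 P0 t * Complex.exp (((R * ((Ham G p + 1 / 2) * t) : ℝ) : ℂ) * Complex.I)) (WX ch ζ1 R)
      (WE R (Mt Φ p Y0 P0 t)) (AWP1_D G (Φ t p).1) _ Cs C1 C2 C4 hR1 (by linarith) hη0 hCs1 (by linarith) (by linarith)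
      (by linarith) hprod (hX ζ1 R hζ1.le (by linarith) hR1).1 (hEs _) (AWP1_Dsm G hG _)
      (hX ζ1 R hζ1.le (by linarith) hR1).2.2.2.2.2 (fun v _ => hXw ζ1 hζ1.le le_rfl v) ?_ ?_ ?_ ?_
    · intro v hv
      have h1 := (hE R (Ca * L ^ 2) ζ1 (Mt Φ p Y0 P0 t) v hR1 (by nlinarith [one_le_pow₀ hL1 (n := 2)]) hζ1.le a6 hv).2
      refine AWP1_mono (by positivity) ?_ (by linarith) ?_ h1
      · calc C2 * (Ca * L ^ 2) * R ^ (1 / 2 + ζ1) = (C2 * Ca) * L ^ 2 * R ^ (1 / 2 + ζ1) := by ring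
          _ ≤ R ^ ζ1 * R ^ (2 * ζ1) * R ^ (1 / 2 + ζ1) := by
              refine mul_le_mul_of_nonneg_right (mul_le_mul hbig1 hL2 (by positivity) (by positivity)) (by positivity)
          _ = R ^ (ζ1 + 2 * ζ1 + (1 / 2 + ζ1)) := by rw [← Real.rpow_add hR0, ← Real.rpow_add hR0]
          _ ≤ R ^ (1 / 2 + η) := Real.rpow_le_rpow_of_exponent_le hR1 (by linarith)
      · have h2 : Real.exp (-(R / 2 * (qf (Mt Φ p Y0 P0 t) v).im)) ≤ 1 := by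
          rw [Real.exp_le_one_iff]
          have := him v
          have : 0 ≤ R / 2 * (qf (Mt Φ p Y0 P0 t) v).im := by positivity
          linarith
        nlinarith
    · intro v hv
      exact hDw _ (hx.trans (le_max_left _ _)) v (hv.trans (hrad ζ1 le_rfl))
    · rw [norm_mul, Complex.norm_exp_ofReal_mul_I, mul_one]
      calc ‖amp Φ p Y0 P0 t‖ * (Cs * (Cs * C1 * C2) * C4) ≤ (Ca * R ^ ζ1) * c6 :=
            mul_le_mul_of_nonneg_right hamp hc60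
        _ = (Ca * c6) * R ^ ζ1 := by ring
        _ ≤ R ^ ζ1 * R ^ ζ1 := mul_le_mul_of_nonneg_right hbig2 (by positivity)
        _ = R ^ (ζ1 + ζ1) := (Real.rpow_add hR0 _ _).symm
        _ ≤ R ^ η := Real.rpow_le_rpow_of_exponent_le hR1 (by linarith)
    · intro w
      have h1 := (hAWEQ d Γ K k B G Φ L Y0 P0 ch ζ1 R hOK hLag hch hζ1 hζ8 hR1 p t (w - (Φ t p).1)).2.1
      have h2 : (Φ t p).1 + (w - (Φ t p).1) = w := by abel
      rw [h2] at h1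
      rw [h1]
      unfold Wpf AWP1_D
      rw [h2]
      ring
  · -- flat packets
    obtain ⟨-, -, -, -, -, -, -, -, c9, c10, -⟩ := hcR R hRR1
    refine AWP1_core hAWPK Kd R ζ η (R ^ (3 * (d : ℝ) / 4 + η)) p (((cR d ch ζ R : ℝ) : ℂ)) (WX ch ζ R)
      (WE R (Complex.I • (1 : MC d))) (AWP1_D G p.1) _ Cs C1 C2 C4 hR1 (by linarith) hη0 hCs1 (by linarith) (by linarith)
      (by linarith) hprod (hX ζ R hζ.le (by linarith) hR1).1 (hEs _) (AWP1_Dsm G hG _)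
      (hX ζ R hζ.le (by linarith) hR1).2.2.2.2.2 (fun v _ => hXw ζ hζ.le hζζ v) ?_ ?_ ?_ (fun w => AWP1_pkt G ch ζ R p w)
    · intro v hv
      have hI : ∀ i j, ‖(Complex.I • (1 : MC d)) i j‖ ≤ 1 := by
        intro i j
        rw [Matrix.smul_apply, Matrix.one_apply]
        split_ifs <;> simp
      have h1 := (hE R 1 ζ (Complex.I • (1 : MC d)) v hR1 le_rfl hζ.le hI hv).2
      refine AWP1_mono (by positivity) ?_ (by linarith) ?_ h1
      · calc C2 * 1 * R ^ (1 / 2 + ζ) ≤ R ^ ζ1 * R ^ (1 / 2 + ζ) := by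
              rw [mul_one]; exact mul_le_mul_of_nonneg_right hbig4 (by positivity)
          _ = R ^ (ζ1 + (1 / 2 + ζ)) := (Real.rpow_add hR0 _ _).symm
          _ ≤ R ^ (1 / 2 + η) := Real.rpow_le_rpow_of_exponent_le hR1 (by linarith)
      · have h2 : Real.exp (-(R / 2 * (qf (Complex.I • (1 : MC d)) v).im)) ≤ 1 := by
          rw [Real.exp_le_one_iff, AWP1_qfI]
          have h3 : (Complex.I * ((‖v‖ ^ 2 : ℝ) : ℂ)).im = ‖v‖ ^ 2 := by
            rw [Complex.mul_im, Complex.I_re, Complex.I_im, Complex.ofReal_re, Complex.ofReal_im]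
            ring
          rw [h3]
          have : 0 ≤ R / 2 * ‖v‖ ^ 2 := by positivity
          linarith
        nlinarith
    · intro v hv
      exact hDw _ (hp.trans (le_max_right _ _)) v (hv.trans (hrad ζ hζζ))
    · rw [Complex.norm_real, Real.norm_of_nonneg c9.le]
      calc cR d ch ζ R * (Cs * (Cs * C1 * C2) * C4) ≤ R ^ (3 * (d : ℝ) / 4) * R ^ ζ1 :=
            mul_le_mul c10 hbig3 hc60 (by positivity)
        _ = R ^ (3 * (d : ℝ) / 4 + ζ1) := (Real.rpow_add hR0 _ _).symm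
        _ ≤ R ^ (3 * (d : ℝ) / 4 + η) := Real.rpow_le_rpow_of_exponent_le hR1 (by linarith)
  · -- the sup norm
    intro w
    have h1 := (hAWEQ d Γ K k B G Φ L Y0 P0 ch ζ1 R hOK hLag hch hζ1 hζ8 hR1 p t (w - (Φ t p).1)).2.1
    have h2 : (Φ t p).1 + (w - (Φ t p).1) = w := by abel
    rw [h2] at h1
    rw [h1]
    obtain ⟨-, x2, x3, -, -, -⟩ := hX ζ1 R hζ1.le (by linarith) hR1
    by_cases h0 : WX ch ζ1 R (w - (Φ t p).1) = 0
    · rw [h0, zero_mul, mul_zero, norm_zero]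
      positivity
    · have hv := (x3 _ h0).trans (hrad ζ1 le_rfl)
      have hden : ‖(((Real.sqrt (dens G ((Φ t p).1 + (w - (Φ t p).1))))⁻¹ : ℝ) : ℂ)‖ ≤ Ch := by
        obtain ⟨-, -, -, -, hb⟩ := hH0 G hK hOK.cls
        have hxv : ‖(Φ t p).1 + (w - (Φ t p).1)‖ ≤ max Cf r + 1 :=
          (norm_add_le _ _).trans (add_le_add (hx.trans (le_max_left _ _)) hv)
        have h3 := ((hb _ hxv).2.1 0 le_rfl).2.1
        rw [norm_iteratedFDeriv_zero] at h3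
        rw [Complex.norm_real]
        exact h3
      have hWE : ‖WE R (Mt Φ p Y0 P0 t) (w - (Φ t p).1)‖ ≤ 1 := by
        rw [AWP1_WEn, Real.exp_le_one_iff]
        have := him (w - (Φ t p).1)
        have : 0 ≤ R / 2 * (qf (Mt Φ p Y0 P0 t) (w - (Φ t p).1)).im := by positivity
        linarith
      have hWX := x2 (w - (Φ t p).1)
      unfold Wpf
      rw [norm_mul, norm_mul, norm_mul, norm_mul, norm_mul, Complex.norm_exp_ofReal_mul_I,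
        Complex.norm_exp_ofReal_mul_I, mul_one, mul_one]
      calc ‖amp Φ p Y0 P0 t‖ * ‖(((Real.sqrt (dens G ((Φ t p).1 + (w - (Φ t p).1))))⁻¹ : ℝ) : ℂ)‖ *
            (‖WX ch ζ1 R (w - (Φ t p).1)‖ * ‖WE R (Mt Φ p Y0 P0 t) (w - (Φ t p).1)‖)
          ≤ ‖amp Φ p Y0 P0 t‖ * Ch * (1 * 1) := by
            refine mul_le_mul (mul_le_mul_of_nonneg_left hden (norm_nonneg _)) (mul_le_mul hWX hWE (norm_nonneg _) zero_le_one)
              (by positivity) (by positivity)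
        _ = Ch * ‖amp Φ p Y0 P0 t‖ := by ring
        _ ≤ (8 + Ca + Ch) * ‖amp Φ p Y0 P0 t‖ := mul_le_mul_of_nonneg_right (by linarith) (norm_nonneg _)

end

end Pool.Agent.VD
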