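import Pool.Agent.helper94.VD.SpecDPR

/-!
# Project VD (MP_07c750_an): row DQM, products of determinants
-/

set_option autoImplicit false

open scoped ContDiff Topology InnerProductSpace ENNReal
open MeasureTheory Filter Set

namespace Pool.Agent.VD

noncomputable section

lemma DQM_lo (hLGB : LGB_stmt) (m : ℕ) (c C : ℝ) (hc : 0 < c) (hC : 1 ≤ C) : ∃ M : ℝ, 1 ≤ M ∧
    ∀ L : ℕ → Z m →L[ℝ] Z m, (∀ i, LH c C (L i)) → ∀ n : ℕ, 1 ≤ n → 1 ≤ M * dB (pl L n) := by
  rcases Nat.eq_zero_or_pos m with hm | hm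
  · subst hm
    refine ⟨1, le_rfl, fun L _ n _ => ?_⟩
    have h1 : (Bk (pl L n)).det = 1 := by
      have h2 : Module.finrank ℝ (W 0) = 0 := by simp
      exact LinearMap.det_eq_one_of_finrank_eq_zero h2 _
    unfold dB
    rw [h1]
    norm_num
  · obtain ⟨K, μ, hK, hμ, h⟩ := hLGB m c C hm hc hC
    refine ⟨K, hK, fun L hL n hn => le_trans ?_ (h L hL n hn).2⟩
    exact Real.one_le_exp (by positivity)

theorem DQM_proof (hLQM : LQM_stmt) (hLGB : LGB_stmt) : DQM_stmt := by
  intro m c C hc hC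
  obtain ⟨K1, hK1, h1⟩ := hLQM m c C hc hC
  obtain ⟨K2, hK2, h2⟩ := DQM_lo hLGB m c C hc hC
  have hdB : ∀ T : Z m →L[ℝ] Z m, 0 ≤ dB T := fun T => abs_nonneg _
  refine ⟨max K1 K2, hK1.trans (le_max_left _ _), ?_⟩
  intro L hL n0 hn0
  have hM0 : 0 ≤ max K1 K2 := by linarith [le_max_left K1 K2]
  refine ⟨?_, ?_⟩
  · intro b hb
    induction b, hb using Nat.le_induction with
    | base =>
      have h0 : (fun i => L (0 * n0 + i)) = L := by
        funext i
        rw [zero_mul, zero_add]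
      rw [one_mul, pow_one, Finset.prod_range_one, h0]
      have h3 : 1 ≤ max K1 K2 := hK1.trans (le_max_left _ _)
      nlinarith [hdB (pl L n0)]
    | succ b hb ih =>
      have hbn : 1 ≤ b * n0 := Nat.mul_pos hb hn0
      have h3 := (h1 L hL (b * n0) n0 hbn hn0).1
      rw [Nat.succ_mul, Finset.prod_range_succ, pow_succ]
      calc dB (pl L (b * n0 + n0)) ≤ K1 * (dB (pl L (b * n0)) * dB (pl (fun i => L (b * n0 + i)) n0)) := h3
        _ ≤ max K1 K2 * ((max K1 K2 ^ b * ∏ j ∈ Finset.range b, dB (pl (fun i => L (j * n0 + i)) n0)) *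
              dB (pl (fun i => L (b * n0 + i)) n0)) := by
            refine mul_le_mul (le_max_left _ _) (mul_le_mul_of_nonneg_right ih (hdB _))
              (mul_nonneg (hdB _) (hdB _)) hM0
        _ = _ := by ring
  · calc 1 ≤ K2 * dB (pl L n0) := h2 L hL n0 hn0
      _ ≤ max K1 K2 * dB (pl L n0) := mul_le_mul_of_nonneg_right (le_max_right _ _) (hdB _)

end

end Pool.Agent.VD
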