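import Pool.Agent.helper55.VD.SpecE3

/-!
# Project VD (MP_07c750_an): row EED, the coefficients of the evolved packets as functions of the time
-/

set_option autoImplicit false

open scoped ContDiff Topology InnerProductSpace ComplexConjugate ENNReal
open MeasureTheory Filter Set

namespace Pool.Agent.VD

open Pool.Agent.VQ (CH KZ PS perZ cmZ)
open Pool.Agent.RPQ (IsOp)

noncomputable section

variable {d : ℕ}

/-- differentiation under the integral -/
lemma EED_par (F F' : ℝ → V d → ℂ) (hF : Continuous fun x : ℝ × V d => F x.1 x.2)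
    (hF' : Continuous fun x : ℝ × V d => F' x.1 x.2) (hd : ∀ s z, HasDerivAt (fun r => F r z) (F' s z) s)
    (t b : ℝ) (hs : ∀ s ∈ Metric.ball t 1, ∀ z, F s z ≠ 0 → ‖z‖ ≤ b) :
    HasDerivAt (fun s => ∫ z, F s z) (∫ z, F' t z) t := by
  set K : Set (V d) := Metric.closedBall 0 b with hK
  have hKc : IsCompact K := isCompact_closedBall _ _
  have hF1 : ∀ s, Continuous (F s) := fun s => hF.comp (continuous_const.prodMk continuous_id)
  have hF2 : ∀ s, Continuous (F' s) := fun s => hF'.comp (continuous_const.prodMk continuous_id)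
  obtain ⟨M, hM⟩ := (isCompact_Icc (a := t - 1) (b := t + 1)).prod hKc |>.exists_bound_of_continuousOn hF'.continuousOn
  refine (hasDerivAt_integral_of_dominated_loc_of_deriv_le (μ := (volume : Measure (V d)))
    (F := F) (F' := F') (x₀ := t) (s := Metric.ball t 1)
    (bound := K.indicator fun _ => M) (Metric.ball_mem_nhds t one_pos)
    (Eventually.of_forall fun s => (hF1 s).aestronglyMeasurable) ?_ (hF2 t).aestronglyMeasurable ?_ ?_ ?_).2
  · refine (hF1 t).integrable_of_hasCompactSupport (HasCompactSupport.intro hKc fun z hz => ?_)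
    by_contra hne
    exact hz (mem_closedBall_zero_iff.mpr (hs t (Metric.mem_ball_self one_pos) z hne))
  · refine Eventually.of_forall fun z s hs' => ?_
    by_cases hz : z ∈ K
    · rw [indicator_of_mem hz]
      have hs'' := hs'
      rw [Metric.mem_ball, Real.dist_eq, abs_lt] at hs''
      exact hM (s, z) ⟨⟨by linarith [hs''.1], by linarith [hs''.2]⟩, hz⟩
    · rw [indicator_of_notMem hz]
      have h0 : (fun r => F r z) =ᶠ[𝓝 s] fun _ => 0 := by
        filter_upwards [Metric.isOpen_ball.mem_nhds hs'] with r hr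
        by_contra hne
        exact hz (mem_closedBall_zero_iff.mpr (hs r hr z hne))
      have h1 : HasDerivAt (fun r => F r z) 0 s := (hasDerivAt_const s (0 : ℂ)).congr_of_eventuallyEq h0
      rw [(hd s z).unique h1, norm_zero]
  · exact (integrable_indicator_iff Metric.isClosed_closedBall.measurableSet).mpr
      (integrableOn_const hKc.measure_ne_top)
  · exact Eventually.of_forall fun z s _ => hd s z

lemma EED_lag : Lag 1 (1 : MC d) (Complex.I • 1) := by
  refine ⟨?_, ?_, ?_, ?_⟩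
  · simp
  · rw [Matrix.conjTranspose_smul]
    simp only [Matrix.conjTranspose_one, one_mul, mul_one, RCLike.star_def, Complex.conj_I]
    rw [← sub_smul]
    congr 1
    ring
  · intro i j
    rw [Matrix.one_apply]
    split_ifs <;> simp
  · intro i j
    rw [Matrix.smul_apply, Matrix.one_apply]
    split_ifs <;> simp

lemma EED_aF {Γ : Type} [Group Γ] [MulAction Γ (V d)] (G : V d → V d →L[ℝ] V d) (r0 R : ℝ) (f : YS Γ d → V d → ℂ)
    (v : V d → ℂ) (p : P d) (hp : p ∈ WP G r0 2 R) :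
    aF G r0 R f v (y1 Γ p) = ∫ z, v z * conj (f (y1 Γ p) z) ∂mv G := by
  have h : y1 Γ p ∈ GW Γ G r0 2 R := hp
  unfold aF
  rw [indicator_of_mem h]
  simp only [pF, y1, inv_one, one_smul]

lemma EED_lapz (G : V d → V d →L[ℝ] V d) (φ : V d → ℂ) (x : V d) (hx : x ∉ tsupport φ) : lap G φ x = 0 := by
  have h0 : φ =ᶠ[𝓝 x] fun _ => 0 := notMem_tsupport_iff_eventuallyEq.mp hx
  have h1 : ∀ᶠ y in 𝓝 x, φ =ᶠ[𝓝 y] fun _ => 0 := eventually_eventually_nhds.mpr h0
  unfold lap
  have h2 : ∀ i : Fin d, fderiv ℝ (fun y => ((dens G y : ℝ) : ℂ) * fderiv ℝ φ y ((G y).inverse (EuclideanSpace.single i 1))) x = 0 := by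
    intro i
    have h3 : (fun y => ((dens G y : ℝ) : ℂ) * fderiv ℝ φ y ((G y).inverse (EuclideanSpace.single i 1))) =ᶠ[𝓝 x] fun _ => 0 := by
      filter_upwards [h1] with y hy
      rw [hy.fderiv_eq]
      simp
    rw [h3.fderiv_eq]
    simp
  simp [h2]

/-- Green's formula for the operator `Hop` -/
lemma EED_green (hEHG : EHG_stmt) (hEHC : EHC_stmt) (G : V d → V d →L[ℝ] V d) (hG : IsMetric G)
    (hdc : Continuous (dens G)) (R : ℝ) (u ψ : V d → ℂ) (hu : ContDiff ℝ 2 u) (hψ : ContDiff ℝ 2 ψ)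
    (hc : HasCompactSupport ψ) :
    ∫ z, dens G z • (u z * conj (Hop G R ψ z)) = ∫ z, dens G z • (Hop G R u z * conj (ψ z)) := by
  obtain ⟨hC, -⟩ := hEHC d G hG
  have hlu := (hC u hu).1
  obtain ⟨hlψ, hconj, -⟩ := hC ψ hψ
  set φ : V d → ℂ := fun y => conj (ψ y) with hφ
  have hφ2 : ContDiff ℝ 2 φ := Complex.conjCLE.contDiff.comp hψ
  have hφc : HasCompactSupport φ := hc.comp_left (map_zero _)
  have hlφ : Continuous (lap G φ) := (hC φ hφ2).1
  have hlφc : HasCompactSupport (lap G φ) := HasCompactSupport.intro hφc.isCompact fun z hz => EED_lapz G φ z hz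
  have hdc' : Continuous fun x => ((dens G x : ℝ) : ℂ) := Complex.continuous_ofReal.comp hdc
  have hgreen := hEHG d G u φ hG hu hφ2 hφc
  have i1 : Integrable fun x => lap G u x * φ x * ((dens G x : ℝ) : ℂ) := by
    refine Continuous.integrable_of_hasCompactSupport ((hlu.mul hφ2.continuous).mul hdc') ?_
    exact (hφc.mul_left).mul_right
  have i2 : Integrable fun x => u x * lap G φ x * ((dens G x : ℝ) : ℂ) := by
    refine Continuous.integrable_of_hasCompactSupport ((hu.continuous.mul hlφ).mul hdc') ?_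
    exact (hlφc.mul_left).mul_right
  have i3 : Integrable fun x => u x * φ x * ((dens G x : ℝ) : ℂ) := by
    refine Continuous.integrable_of_hasCompactSupport ((hu.continuous.mul hφ2.continuous).mul hdc') ?_
    exact (hφc.mul_left).mul_right
  set c : ℂ := (((2 * R)⁻¹ : ℝ) : ℂ) with hcd
  set r : ℂ := ((R ^ 2 : ℝ) : ℂ) with hr
  have e1 : (fun z => dens G z • (u z * conj (Hop G R ψ z))) =
      fun z => (-c) * (u z * lap G φ z * ((dens G z : ℝ) : ℂ)) - (c * r) * (u z * φ z * ((dens G z : ℝ) : ℂ)) := by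
    funext z
    unfold Hop
    rw [map_mul, map_sub, map_neg, map_mul, Complex.conj_ofReal, Complex.conj_ofReal, ← hconj z,
      Complex.real_smul]
    simp only [hφ, ← hcd, ← hr]
    ring
  have e2 : (fun z => dens G z • (Hop G R u z * conj (ψ z))) =
      fun z => (-c) * (lap G u z * φ z * ((dens G z : ℝ) : ℂ)) - (c * r) * (u z * φ z * ((dens G z : ℝ) : ℂ)) := by
    funext z
    unfold Hop
    rw [Complex.real_smul]
    simp only [hφ, ← hcd, ← hr]
    ring
  rw [e1, e2, integral_sub (i2.const_mul _) (i3.const_mul _), integral_sub (i1.const_mul _) (i3.const_mul _),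
    integral_const_mul, integral_const_mul, integral_const_mul, hgreen]

lemma EED_small (R : ℝ) (hR : 16 ≤ R) : R ^ (-(1 / 4) : ℝ) ≤ 1 / 2 := by
  have h1 : R ^ (-(1 / 4) : ℝ) ≤ (16 : ℝ) ^ (-(1 / 4) : ℝ) :=
    Real.rpow_le_rpow_of_nonpos (by norm_num) hR (by norm_num)
  have h2 : (16 : ℝ) ^ (-(1 / 4) : ℝ) = 1 / 2 := by
    rw [show (16 : ℝ) = 2 ^ (4 : ℝ) by norm_num, ← Real.rpow_mul (by norm_num)]
    norm_num [Real.rpow_neg_one]
  linarith

lemma EED_conj (f : ℝ → ℂ) (f' : ℂ) (s : ℝ) (h : HasDerivAt f f' s) :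
    HasDerivAt (fun r => conj (f r)) (conj f') s := by
  have h3 := (Complex.conjCLE.toContinuousLinearMap.hasFDerivAt (x := f s)).comp_hasDerivAt s h
  exact h3

/-- the abstract form: beams `bb`, errors `ee`, functions `c` of phase space -/
lemma EED_main (hEHG : EHG_stmt) (hEHC : EHC_stmt) (G : V d → V d →L[ℝ] V d) (hG : IsMetric G)
    (hdc : Continuous (dens G)) (R Cb : ℝ) (W : Set (P d)) (bb ee : P d → ℝ → V d → ℂ) (c : P d → ℂ)
    (hcc : Continuous c)
    (b1 : ∀ p t, ContDiff ℝ ∞ (bb p t)) (b2 : Continuous fun x : (P d × ℝ) × V d => bb x.1.1 x.1.2 x.2)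
    (b5 : Continuous fun x : (P d × ℝ) × V d => lap G (bb x.1.1 x.1.2) x.2)
    (b6 : Continuous fun x : (P d × ℝ) × V d => ee x.1.1 x.1.2 x.2)
    (b8 : ∀ (p : P d) (t : ℝ) (w : V d), HasDerivAt (fun s => bb p s w)
      (-(Complex.I * Hop G R (bb p t) w) - Complex.I * ee p t w) t)
    (hW : ∀ p ∈ W, ∀ t : ℝ, |t| ≤ 2 → ∀ w, (bb p t w ≠ 0 ∨ ee p t w ≠ 0) → ‖w‖ ≤ Cb)
    (u : V d → ℂ) (hu : ContDiff ℝ 2 u) :
    (∀ p ∈ W, ∀ t ∈ Icc (0 : ℝ) 1, HasDerivAt (fun s => c p * ∫ z, dens G z • (u z * conj (bb p s z)))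
      (Complex.I * (c p * ∫ z, dens G z • (Hop G R u z * conj (bb p t z))) +
        Complex.I * (c p * ∫ z, dens G z • (u z * conj (ee p t z)))) t) ∧
    (∀ v : V d → ℂ, Continuous v → ContinuousOn (fun x : P d × ℝ => c x.1 * ∫ z, dens G z • (v z * conj (bb x.1 x.2 z))) (W ×ˢ Icc 0 1)) ∧
    ContinuousOn (fun x : P d × ℝ => c x.1 * ∫ z, dens G z • (u z * conj (ee x.1 x.2 z))) (W ×ˢ Icc 0 1) := by
  have hIcc : ∀ t ∈ Icc (0 : ℝ) 1, |t| ≤ 2 := fun t ht => by
    rw [abs_of_nonneg ht.1]; linarith [ht.2]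
  -- continuity of the coefficients
  have hcont : ∀ (β : P d → ℝ → V d → ℂ), Continuous (fun x : (P d × ℝ) × V d => β x.1.1 x.1.2 x.2) →
      (∀ p ∈ W, ∀ t ∈ Icc (0 : ℝ) 1, ∀ w, β p t w ≠ 0 → ‖w‖ ≤ Cb) → ∀ v : V d → ℂ, Continuous v →
      ContinuousOn (fun x : P d × ℝ => c x.1 * ∫ z, dens G z • (v z * conj (β x.1 x.2 z))) (W ×ˢ Icc 0 1) := by
    intro β hβ hs v hv
    refine (hcc.comp continuous_fst).continuousOn.mul ?_
    refine continuousOn_integral_of_compact_support (isCompact_closedBall (0 : V d) Cb) ?_ ?_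
    · apply Continuous.continuousOn
      change Continuous fun x : (P d × ℝ) × V d => dens G x.2 • (v x.2 * conj (β x.1.1 x.1.2 x.2))
      exact (hdc.comp continuous_snd).smul ((hv.comp continuous_snd).mul (Complex.continuous_conj.comp hβ))
    · intro x z hx hz
      have h0 : β x.1 x.2 z = 0 := by
        by_contra hne
        exact hz (mem_closedBall_zero_iff.mpr (hs x.1 hx.1 x.2 hx.2 z hne))
      rw [h0, map_zero, mul_zero, smul_zero]
  refine ⟨?_, fun v hv => hcont bb b2 (fun p hp' t ht w hw => hW p hp' t (hIcc t ht) w (Or.inl hw)) v hv,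
    hcont ee b6 (fun p hp' t ht w hw => hW p hp' t (hIcc t ht) w (Or.inr hw)) u hu.continuous⟩
  intro p hp' t ht
  have hemb : Continuous fun x : ℝ × V d => (((p, x.1), x.2) : (P d × ℝ) × V d) := by fun_prop
  have hbc : Continuous fun x : ℝ × V d => bb p x.1 x.2 := b2.comp hemb
  have hlc : Continuous fun x : ℝ × V d => lap G (bb p x.1) x.2 := b5.comp hemb
  have hec : Continuous fun x : ℝ × V d => ee p x.1 x.2 := b6.comp hemb
  have hHc : Continuous fun x : ℝ × V d => Hop G R (bb p x.1) x.2 := by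
    unfold Hop
    exact continuous_const.mul (hlc.neg.sub (continuous_const.mul hbc))
  have hduc : Continuous fun x : ℝ × V d => dens G x.2 := hdc.comp continuous_snd
  have huc : Continuous fun x : ℝ × V d => u x.2 := hu.continuous.comp continuous_snd
  have hder := EED_par (fun s z => dens G z • (u z * conj (bb p s z)))
    (fun s z => dens G z • (u z * conj (-(Complex.I * Hop G R (bb p s) z) - Complex.I * ee p s z)))
    (hduc.smul (huc.mul (Complex.continuous_conj.comp hbc)))
    (hduc.smul (huc.mul (Complex.continuous_conj.comp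
      ((continuous_const.mul hHc).neg.sub (continuous_const.mul hec)))))
    (fun s z => by
      have h1 := b8 p s z
      have h2 := EED_conj _ _ s h1
      exact (h2.const_mul (u z)).const_smul (dens G z)) t Cb
    (fun s hs z hne => by
      have hs2 : |s| ≤ 2 := by
        rw [Metric.mem_ball, Real.dist_eq, abs_lt] at hs
        rw [abs_le]
        constructor <;> linarith [ht.1, ht.2]
      refine hW p hp' s hs2 z (Or.inl fun h0 => hne ?_)
      rw [h0, map_zero, mul_zero, smul_zero])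
  have hbs : HasCompactSupport (bb p t) := by
    refine HasCompactSupport.intro (isCompact_closedBall (0 : V d) Cb) fun z hz => ?_
    by_contra hne
    exact hz (mem_closedBall_zero_iff.mpr (hW p hp' t (hIcc t ht) z (Or.inl hne)))
  have hes : HasCompactSupport (ee p t) := by
    refine HasCompactSupport.intro (isCompact_closedBall (0 : V d) Cb) fun z hz => ?_
    by_contra hne
    exact hz (mem_closedBall_zero_iff.mpr (hW p hp' t (hIcc t ht) z (Or.inr hne)))
  have hb2 : ContDiff ℝ 2 (bb p t) := contDiff_infty.mp (b1 p t) 2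
  have hgr := EED_green hEHG hEHC G hG hdc R u (bb p t) hu hb2 hbs
  have hHt : Continuous (Hop G R (bb p t)) := hHc.comp (continuous_const.prodMk continuous_id)
  have het : Continuous (ee p t) := hec.comp (continuous_const.prodMk continuous_id)
  have hHs : HasCompactSupport (Hop G R (bb p t)) := by
    refine HasCompactSupport.intro hbs.isCompact fun z hz => ?_
    unfold Hop
    rw [EED_lapz G _ z hz, image_eq_zero_of_notMem_tsupport hz]
    simp
  have gen : ∀ f : V d → ℂ, Continuous f → HasCompactSupport f →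
      Integrable fun z => dens G z • (u z * conj (f z)) := by
    intro f hf hfs
    have hcs : HasCompactSupport fun z => conj (f z) := hfs.comp_left (map_zero _)
    exact (hdc.smul (hu.continuous.mul (Complex.continuous_conj.comp hf))).integrable_of_hasCompactSupport
      (hcs.mul_left.smul_left)
  have j1 := gen _ hHt hHs
  have j2 := gen _ het hes
  have hval : (∫ z, dens G z • (u z * conj (-(Complex.I * Hop G R (bb p t) z) - Complex.I * ee p t z))) =
      Complex.I * (∫ z, dens G z • (Hop G R u z * conj (bb p t z))) +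
        Complex.I * ∫ z, dens G z • (u z * conj (ee p t z)) := by
    rw [← hgr, ← integral_const_mul, ← integral_const_mul, ← integral_add (j1.const_mul _) (j2.const_mul _)]
    refine integral_congr_ae (Eventually.of_forall fun z => ?_)
    simp only [map_sub, map_neg, map_mul, Complex.conj_I, Complex.real_smul]
    ring
  rw [hval] at hder
  have hfin := hder.const_mul (c p)
  have e2 : Complex.I * (c p * ∫ z, dens G z • (Hop G R u z * conj (bb p t z))) +
      Complex.I * (c p * ∫ z, dens G z • (u z * conj (ee p t z))) =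
      c p * (Complex.I * (∫ z, dens G z • (Hop G R u z * conj (bb p t z))) +
        Complex.I * ∫ z, dens G z • (u z * conj (ee p t z))) := by ring
  rw [e2]
  exact hfin

/-- the coefficients -/
lemma EED_coef (G : V d → V d →L[ℝ] V d)
    (hint : ∀ f : V d → ℂ, ∫ x, f x ∂mv G = ∫ x, dens G x • f x) (c : ℝ) (v β : V d → ℂ) :
    ∫ z, v z * conj ((c : ℂ) * β z) ∂mv G = (c : ℂ) * ∫ z, dens G z • (v z * conj (β z)) := by
  rw [hint, ← integral_const_mul]
  refine integral_congr_ae (Eventually.of_forall fun z => ?_)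
  simp only [map_mul, Complex.conj_ofReal, Complex.real_smul]
  ring

theorem EED_proof (hABMR : ABMR_stmt) (hACNF : ACNF_stmt) (hAMVI : AMVI_stmt) (hEHG : EHG_stmt)
    (hEHC : EHC_stmt) : EED_stmt := by
  intro d Γ _ _ K k B r0 χ hK hχ
  refine ⟨8, by norm_num, ?_⟩
  intro ch A hch hA
  refine ⟨16, by norm_num, ?_⟩
  intro R G Φ u hR hOK hu
  have hR1 : 1 ≤ R := by linarith
  obtain ⟨hz, hzz, hz1, hz12, hz2, hz3, hz4, -⟩ := EAM1 hA (by norm_num)
  have hz8 : A.z1 ≤ 1 / 8 := by nlinarith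
  obtain ⟨C, hC1, hC⟩ := hACNF d Γ K k B r0 2 hK
  obtain ⟨-, hd, hp, -, -, -, -, hint, -⟩ := hAMVI d Γ K k B G hK hOK.cls
  have hG := hOK.cls.met
  obtain ⟨b1, b2, -, -, b5, b6, b7, b8⟩ := hABMR d Γ K k B G Φ 1 1 (Complex.I • 1) ch A.z1 R hOK EED_lag hch
    hz1 hz8 hR1
  have hcc : Continuous fun p : P d => ((χ p.1 * cR d ch A.z R : ℝ) : ℂ) :=
    Complex.continuous_ofReal.comp ((hχ.smooth.continuous.comp continuous_fst).mul continuous_const)
  have hrad : R ^ (-(1 / 2) + A.z1) ≤ 1 := Real.rpow_le_one_of_one_le_of_nonpos hR1 (by linarith)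
  have hW : ∀ p ∈ WP G r0 2 R, ∀ t : ℝ, |t| ≤ 2 → ∀ w, (bt G Φ ch A.z1 R 1 (Complex.I • 1) p t w ≠ 0 ∨
      Eb G Φ ch A.z1 R 1 (Complex.I • 1) p t w ≠ 0) → ‖w‖ ≤ C + 1 := by
    intro p hp' t ht w hw
    have hham : Ham G p ≤ 2 := by
      have h1 := (abs_le.mp hp'.2).2
      have h2 := EED_small R hR
      unfold Ep at h1
      linarith
    have h1 := (hC G Φ hOK p t hp'.1 hham ht).1
    have h2 := (b7 p t w hw).trans hrad
    calc ‖w‖ = ‖(w - (Φ t p).1) + (Φ t p).1‖ := by rw [sub_add_cancel]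
      _ ≤ ‖w - (Φ t p).1‖ + ‖(Φ t p).1‖ := norm_add_le _ _
      _ ≤ C + 1 := by linarith
  obtain ⟨m1, m2, m3⟩ := EED_main hEHG hEHC G hG hd.continuous R (C + 1) (WP G r0 2 R)
    (fun p t w => bt G Φ ch A.z1 R 1 (Complex.I • 1) p t w)
    (fun p t w => Eb G Φ ch A.z1 R 1 (Complex.I • 1) p t w)
    (fun p : P d => ((χ p.1 * cR d ch A.z R : ℝ) : ℂ)) hcc b1 b2 b5 b6 b8 hW u hu
  have hP : ∀ (v : V d → ℂ) (t : ℝ), ∀ p ∈ WP G r0 2 R, aF G r0 R (fP G Φ χ ch A.z A.z1 R t) v (y1 Γ p) =
      ((χ p.1 * cR d ch A.z R : ℝ) : ℂ) * ∫ z, dens G z • (v z * conj (bt G Φ ch A.z1 R 1 (Complex.I • 1) p t z)) :=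
    fun v t p hp' => (EED_aF G r0 R _ v p hp').trans (EED_coef G (hint ℂ) _ v _)
  have hE : ∀ (v : V d → ℂ) (t : ℝ), ∀ p ∈ WP G r0 2 R, aF G r0 R (fE G Φ χ ch A.z A.z1 R t) v (y1 Γ p) =
      ((χ p.1 * cR d ch A.z R : ℝ) : ℂ) * ∫ z, dens G z • (v z * conj (Eb G Φ ch A.z1 R 1 (Complex.I • 1) p t z)) :=
    fun v t p hp' => (EED_aF G r0 R _ v p hp').trans (EED_coef G (hint ℂ) _ v _)
  refine ⟨?_, ?_, ?_⟩
  · intro p hp' t ht
    have h := m1 p hp' t ht
    have e1 : (fun s => aF G r0 R (fP G Φ χ ch A.z A.z1 R s) u (y1 Γ p)) =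
        fun s => ((χ p.1 * cR d ch A.z R : ℝ) : ℂ) * ∫ z, dens G z • (u z * conj (bt G Φ ch A.z1 R 1 (Complex.I • 1) p s z)) :=
      funext fun s => hP u s p hp'
    rw [e1, hP (Hop G R u) t p hp', hE u t p hp']
    exact h
  · intro v hv
    exact (m2 v hv).congr fun x hx => hP v x.2 x.1 hx.1
  · exact m3.congr fun x hx => hE u x.2 x.1 hx.1

end

end Pool.Agent.VD
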