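import Pool.Agent.helper55.VD.SpecE5

/-!
# Project VD (MP_07c750_an): row EG0, from the eigenfunction `φ` to `u = e^((d-2) f'/4) φ`
-/

set_option autoImplicit false

open scoped ContDiff Topology InnerProductSpace ComplexConjugate ENNReal
open MeasureTheory Filter Set

namespace Pool.Agent.VD

open Pool.Agent.VQ (CH KZ PS perZ cmZ)
open Pool.Agent.RPQ (IsOp)
open Pool.Agent.VDA (STP FB FR FT nY OY OA)
open Pool.Agent.VDE (FDX)

noncomputable section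

lemma EG0_num (d : ℕ) (R : ℝ) (hR : ((d : ℝ) + 2) ^ 4 ≤ R) :
    1 ≤ R ∧ R ^ (1 / 100 : ℝ) / R * ((d : ℝ) + 2) ≤ R ^ (-(1 / 2) : ℝ) ∧ R ^ (-(1 / 2) : ℝ) ≤ 1 / 4 ∧
      R ^ (-(1 / 4) : ℝ) ≤ 1 ∧ (R ^ (-(1 / 2) : ℝ)) ^ 2 = R ^ (-1 : ℝ) := by
  have hd : (0 : ℝ) ≤ d := Nat.cast_nonneg d
  have h16 : (16 : ℝ) ≤ ((d : ℝ) + 2) ^ 4 := by
    have h1 : (2 : ℝ) ≤ (d : ℝ) + 2 := by linarith
    calc (16 : ℝ) = 2 ^ 4 := by norm_num
      _ ≤ ((d : ℝ) + 2) ^ 4 := pow_le_pow_left₀ (by norm_num) h1 4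
  have hR16 : 16 ≤ R := h16.trans hR
  have hR1 : 1 ≤ R := by linarith
  have hR0 : 0 < R := by linarith
  refine ⟨hR1, ?_, ?_, ?_, ?_⟩
  · have h1 : (d : ℝ) + 2 ≤ R ^ (1 / 4 : ℝ) := by
      have h2 : (((d : ℝ) + 2) ^ 4) ^ (1 / 4 : ℝ) ≤ R ^ (1 / 4 : ℝ) :=
        Real.rpow_le_rpow (by positivity) hR (by norm_num)
      have h3 : (((d : ℝ) + 2) ^ 4) ^ (1 / 4 : ℝ) = (d : ℝ) + 2 := by
        rw [← Real.rpow_natCast, ← Real.rpow_mul (by positivity)]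
        norm_num
      linarith
    have h4 : R ^ (1 / 100 : ℝ) / R = R ^ (1 / 100 - 1 : ℝ) := (Real.rpow_sub_one hR0.ne' _).symm
    rw [h4]
    calc R ^ (1 / 100 - 1 : ℝ) * ((d : ℝ) + 2) ≤ R ^ (1 / 100 - 1 : ℝ) * R ^ (1 / 4 : ℝ) :=
          mul_le_mul_of_nonneg_left h1 (Real.rpow_nonneg hR0.le _)
      _ = R ^ (1 / 100 - 1 + 1 / 4 : ℝ) := (Real.rpow_add hR0 _ _).symm
      _ ≤ R ^ (-(1 / 2) : ℝ) := Real.rpow_le_rpow_of_exponent_le hR1 (by norm_num)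
  · have h1 : R ^ (-(1 / 2) : ℝ) ≤ (16 : ℝ) ^ (-(1 / 2) : ℝ) :=
      Real.rpow_le_rpow_of_nonpos (by norm_num) hR16 (by norm_num)
    have h2 : (16 : ℝ) ^ (-(1 / 2) : ℝ) = 1 / 4 := by
      rw [show (16 : ℝ) = 4 ^ (2 : ℝ) by norm_num, ← Real.rpow_mul (by norm_num)]
      norm_num [Real.rpow_neg_one]
    linarith
  · exact Real.rpow_le_one_of_one_le_of_nonpos hR1 (by norm_num)
  · rw [← Real.rpow_natCast, ← Real.rpow_mul hR0.le]
    norm_num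

/-- the size of `e^a - 1` -/
lemma EG0_exp (d : ℕ) (R t : ℝ) (hR : ((d : ℝ) + 2) ^ 4 ≤ R) (ht : |t| ≤ R ^ (1 / 100 : ℝ) / R) :
    |Real.exp (((d : ℝ) - 2) / 4 * t) - 1| ≤ R ^ (-(1 / 2) : ℝ) := by
  obtain ⟨hR1, h1, h2, -, -⟩ := EG0_num d R hR
  have hd : (0 : ℝ) ≤ d := Nat.cast_nonneg d
  have h3 : |((d : ℝ) - 2) / 4 * t| ≤ R ^ (-(1 / 2) : ℝ) / 4 := by
    rw [abs_mul, abs_div]
    have h4 : |(d : ℝ) - 2| ≤ (d : ℝ) + 2 := by
      rw [abs_le]; constructor <;> linarith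
    have h5 : |(4 : ℝ)| = 4 := abs_of_pos (by norm_num)
    rw [h5]
    calc |(d : ℝ) - 2| / 4 * |t| ≤ ((d : ℝ) + 2) / 4 * (R ^ (1 / 100 : ℝ) / R) :=
          mul_le_mul (by linarith) ht (abs_nonneg _) (by linarith)
      _ = (R ^ (1 / 100 : ℝ) / R * ((d : ℝ) + 2)) / 4 := by ring
      _ ≤ R ^ (-(1 / 2) : ℝ) / 4 := by linarith
  have h6 : |((d : ℝ) - 2) / 4 * t| ≤ 1 := by linarith
  have h7 := Real.abs_exp_sub_one_le h6
  have h8 : 0 ≤ R ^ (-(1 / 2) : ℝ) := Real.rpow_nonneg (by linarith) _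
  linarith

lemma EG0_cls {d : ℕ} {Γ : Type} [Group Γ] [MulAction Γ (V d)] {K : Set (V d)} {k : ℝ} {B B'' : ℕ → ℕ → ℝ}
    (hB : ∀ m n, B m n ≤ B'' m n) {G : V d → V d →L[ℝ] V d} (h : Cls Γ K k B G) : Cls Γ K k B'' G := by
  refine ⟨h.met, h.isom, h.kpos, ?_, ?_, h.neg⟩
  · intro m x u hx
    refine (h.lo m x u hx).trans (mul_le_mul_of_nonneg_right (hB m 0) ?_)
    by_cases hu : u = 0
    · rw [hu, inner_zero_right]
    · exact (h.met.pos x u hu).le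
  · intro m n x hx
    exact (h.bd m n x hx).trans (hB m n)

lemma EG0_egt {d : ℕ} {Γ : Type} [Group Γ] [MulAction Γ (V d)] {B B' B'' : ℕ → ℕ → ℝ}
    (hB : ∀ m n, B' m n ≤ B'' m n) {G : V d → V d →L[ℝ] V d} {R μ : ℝ} (hR : 1 ≤ R) {f f' : V d → ℝ} {φ : V d → ℂ}
    (h : EgD Γ B' R G f f' μ φ) : EgT Γ B'' G R f f' μ φ := by
  have hκ : 0 < R ^ (1 / 100 : ℝ) / R := by positivity
  have hκ1 : R ^ (1 / 100 : ℝ) / R ≤ 1 := by
    rw [div_le_one (by linarith)]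
    calc R ^ (1 / 100 : ℝ) ≤ R ^ (1 : ℝ) := Real.rpow_le_rpow_of_exponent_le hR (by norm_num)
      _ = R := Real.rpow_one R
  refine ⟨⟨h.sm.inv, h.sm.smooth, h.sm.bd, ?_⟩, h.sm'.inv, h.sm'.smooth, ?_, h.cl, h.pos, h.mu, h.eig⟩
  · intro m n x hx
    exact (h.sm.der m n x hx).trans (mul_le_mul_of_nonneg_right (hB m n) hκ.le)
  · intro m n x _ hx
    have h1 := h.sm'.der m n x hx
    have h2 : 0 ≤ B' m n := by
      by_contra hneg
      push Not at hneg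
      have h3 : B' m n * (R ^ (1 / 100 : ℝ) / R) < 0 := mul_neg_of_neg_of_pos hneg hκ
      have h4 := norm_nonneg (iteratedFDeriv ℝ n f' x)
      linarith
    calc ‖iteratedFDeriv ℝ n f' x‖ ≤ B' m n * (R ^ (1 / 100 : ℝ) / R) := h1
      _ ≤ B' m n * 1 := mul_le_mul_of_nonneg_left hκ1 h2
      _ ≤ B'' m n := by rw [mul_one]; exact hB m n

/-- monotonicity of `nn` -/
lemma EG0_nn {d : ℕ} (G : V d → V d →L[ℝ] V d) (hfin : ∀ S : Set (V d), IsCompact S → mv G S < ⊤) (K F : Set (V d))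
    (hK : IsCompact K) (hF : MeasurableSet F) (hFK : F ⊆ K) (φ ψ : V d → ℂ) (hφ : Continuous φ) (hψ : Continuous ψ)
    (c : ℝ) (h : ∀ z, ‖φ z‖ ^ 2 ≤ c * ‖ψ z‖ ^ 2) : nn G F φ ≤ c * nn G F ψ := by
  haveI : IsFiniteMeasureOnCompacts (mv G) := ⟨fun S hS => hfin S hS⟩
  unfold nn
  rw [← integral_const_mul]
  have i1 : IntegrableOn (fun z => ‖φ z‖ ^ 2) F (mv G) :=
    ((hφ.norm.pow 2).continuousOn.integrableOn_compact hK).mono_set hFK
  have i2 : IntegrableOn (fun z => c * ‖ψ z‖ ^ 2) F (mv G) :=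
    ((continuous_const.mul (hψ.norm.pow 2)).continuousOn.integrableOn_compact hK).mono_set hFK
  exact integral_mono i1 i2 h

lemma EG0_int {d : ℕ} {Γ : Type} [Group Γ] [MulAction Γ (V d)] (hs : ∀ γ : Γ, ContDiff ℝ ∞ fun x : V d => γ • x)
    (G : V d → V d →L[ℝ] V d) (hfin : ∀ S : Set (V d), IsCompact S → mv G S < ⊤) (r0 : ℝ) (y : YS Γ d)
    (g : V d → ℂ) (hg : Continuous g) (hsup : ∀ z, g z ≠ 0 → ‖y.1⁻¹ • z‖ ≤ r0) (φ : V d → ℂ) (hφ : Continuous φ) :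
    Integrable (fun z => φ z * conj (g z)) (mv G) := by
  haveI : IsFiniteMeasureOnCompacts (mv G) := ⟨fun S hS => hfin S hS⟩
  have hc : HasCompactSupport g := by
    refine HasCompactSupport.intro ((isCompact_closedBall (0 : V d) r0).image (hs y.1).continuous) fun z hz => ?_
    by_contra hne
    apply hz
    refine ⟨y.1⁻¹ • z, mem_closedBall_zero_iff.mpr (hsup z hne), ?_⟩
    exact smul_inv_smul y.1 z
  have hcs : HasCompactSupport fun z => conj (g z) := hc.comp_left (map_zero _)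
  exact (hφ.mul (Complex.continuous_conj.comp hg)).integrable_of_hasCompactSupport hcs.mul_left

theorem EG0_proof (hAQAD : AQAD_stmt) (hAQSD : AQSD_stmt) (hAMVI : AMVI_stmt) : EG0_stmt := by
  intro d Γ _ _ K F0 r0 χ ch k B B' hd2 hK hF hχ hch
  have hFD : FD Γ F0 := by
    obtain ⟨b, hb⟩ := hK.compact.isBounded.exists_norm_le
    exact ⟨hF.meas, hF.uniq, b, fun x hx => hb x (hF.sub hx)⟩
  refine ⟨hFD, fun m n => max (B m n) (B' m n), fun G hG => EG0_cls (fun m n => le_max_left _ _) hG, ?_⟩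
  intro ζ hζ hζ8
  obtain ⟨R1, hR11, hQ⟩ := hAQAD d Γ K k B r0 χ ch ζ hK hχ hch hζ hζ8
  obtain ⟨R2, hR21, hS⟩ := hAQSD d Γ K k B r0 χ ch ζ hK hχ hch hζ hζ8
  refine ⟨max (max R1 R2) (((d : ℝ) + 2) ^ 4), le_trans hR11 ((le_max_left _ _).trans (le_max_left _ _)), ?_⟩
  intro R G f f' μ φ hR hG hE
  have hRR1 : R1 ≤ R := ((le_max_left _ _).trans (le_max_left _ _)).trans hR
  have hRR2 : R2 ≤ R := ((le_max_right _ _).trans (le_max_left _ _)).trans hR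
  have hRR3 : ((d : ℝ) + 2) ^ 4 ≤ R := (le_max_right _ _).trans hR
  obtain ⟨hR1, n1, n2, n3, n4⟩ := EG0_num d R hRR3
  obtain ⟨-, -, -, -, hfin, -, -, -, -⟩ := hAMVI d Γ K k B G hK hG
  have hDm : Dm (⊤ : Subgroup Γ) F0 ({(1 : Γ)} : Set Γ) := Or.inl ⟨rfl, hFD, rfl⟩
  obtain ⟨hQ1, -⟩ := hQ R G hRR1 hG ⊤ F0 {(1 : Γ)} hDm
  obtain ⟨s1, s2, -, -, -, -, s7⟩ := hS R G hRR2 hG
  obtain ⟨s8, -⟩ := s7 ⊤ F0 {(1 : Γ)} hDm
  obtain ⟨b, hb⟩ := hFD.bdd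
  have hφc : Continuous φ := hE.eig.1.continuous
  have hφi : Inv Γ φ := hE.eig.2.1
  have hfc : Continuous f' := hE.sm'.smooth.continuous
  have huc : Continuous (uE f' φ) := by
    unfold uE
    exact (Complex.continuous_ofReal.comp (Real.continuous_exp.comp (continuous_const.mul hfc))).mul hφc
  have hui : Inv Γ (uE f' φ) := by
    intro γ x
    unfold uE
    rw [hφi γ x, hE.sm'.inv γ x]
  have hFH : ∀ ψ : V d → ℂ, Continuous ψ → Inv Γ ψ → FH (⊤ : Subgroup Γ) F0 ψ := fun ψ h1 h2 =>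
    ⟨h1, fun γ _ z => h2 γ z, b, fun z hz _ => hb z hz⟩
  have hpt : ∀ z, ‖uE f' φ z - φ z‖ ≤ R ^ (-(1 / 2) : ℝ) * ‖φ z‖ := by
    intro z
    have h1 : uE f' φ z - φ z = ((Real.exp (((d : ℝ) - 2) / 4 * f' z) - 1 : ℝ) : ℂ) * φ z := by
      unfold uE
      push_cast
      ring
    rw [h1, norm_mul, Complex.norm_real, Real.norm_eq_abs]
    exact mul_le_mul_of_nonneg_right (EG0_exp d R (f' z) hRR3 (hE.sm'.bd z)) (norm_nonneg _)
  have hr0 : 0 ≤ R ^ (-(1 / 2) : ℝ) := Real.rpow_nonneg (by linarith) _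
  have hdc : Continuous fun z => uE f' φ z - φ z := huc.sub hφc
  have hdi : Inv Γ fun z => uE f' φ z - φ z := fun γ x => by
    change uE f' φ (γ • x) - φ (γ • x) = uE f' φ x - φ x
    rw [hui γ x, hφi γ x]
  have hnd : nn G F0 (fun z => uE f' φ z - φ z) ≤ R ^ (-1 : ℝ) * nn G F0 φ := by
    refine EG0_nn G hfin K F0 hK.compact hF.meas hF.sub _ _ hdc hφc _ fun z => ?_
    rw [← n4, ← mul_pow]
    exact pow_le_pow_left₀ (norm_nonneg _) (hpt z) 2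
  refine ⟨EG0_egt (B := B) (fun m n => le_max_right _ _) hR1 hE, hFH φ hφc hφi, hFH _ huc hui, hpt, ?_, ?_, hnd,
    (s8 φ (hFH φ hφc hφi)).1, (s8 _ (hFH _ huc hui)).1, ?_, (hQ1 φ (hFH φ hφc hφi)).1⟩
  · refine EG0_nn G hfin K F0 hK.compact hF.meas hF.sub _ _ huc hφc _ fun z => ?_
    have h1 : ‖uE f' φ z‖ ≤ 5 / 4 * ‖φ z‖ := by
      have h2 : ‖uE f' φ z‖ ≤ ‖uE f' φ z - φ z‖ + ‖φ z‖ := by
        calc ‖uE f' φ z‖ = ‖(uE f' φ z - φ z) + φ z‖ := by rw [sub_add_cancel]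
          _ ≤ _ := norm_add_le _ _
      have h3 := hpt z
      have h4 := norm_nonneg (φ z)
      nlinarith
    have h5 := norm_nonneg (uE f' φ z)
    have h6 := norm_nonneg (φ z)
    nlinarith
  · refine EG0_nn G hfin K F0 hK.compact hF.meas hF.sub _ _ hφc huc _ fun z => ?_
    have h1 : 3 / 4 * ‖φ z‖ ≤ ‖uE f' φ z‖ := by
      have h2 : ‖φ z‖ ≤ ‖uE f' φ z - φ z‖ + ‖uE f' φ z‖ := by
        calc ‖φ z‖ = ‖-(uE f' φ z - φ z) + uE f' φ z‖ := by congr 1; ring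
          _ ≤ ‖-(uE f' φ z - φ z)‖ + ‖uE f' φ z‖ := norm_add_le _ _
          _ = _ := by rw [norm_neg]
      have h3 := hpt z
      have h4 := norm_nonneg (φ z)
      nlinarith
    have h5 := norm_nonneg (uE f' φ z)
    have h6 := norm_nonneg (φ z)
    nlinarith
  · have hlin : (fun y : YS Γ d => QF G χ ch ζ R (uE f' φ) y - QF G χ ch ζ R φ y) =
        QF G χ ch ζ R (fun z => uE f' φ z - φ z) := by
      funext y
      have hgc : Continuous (Gp G χ ch ζ R y) := (s1 y.1).comp (continuous_const.prodMk continuous_id)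
      have hgs : ∀ z, Gp G χ ch ζ R y z ≠ 0 → ‖y.1⁻¹ • z‖ ≤ r0 := fun z hz => (s2 y z hz).2.2
      have j1 := EG0_int hK.smooth G hfin r0 y _ hgc hgs (uE f' φ) huc
      have j2 := EG0_int hK.smooth G hfin r0 y _ hgc hgs φ hφc
      unfold QF
      rw [← integral_sub j1 j2]
      refine integral_congr_ae (Eventually.of_forall fun z => ?_)
      change uE f' φ z * conj (Gp G χ ch ζ R y z) - φ z * conj (Gp G χ ch ζ R y z) =
        (uE f' φ z - φ z) * conj (Gp G χ ch ζ R y z)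
      ring
    rw [hlin]
    have h1 := (hQ1 _ (hFH _ hdc hdi)).1
    have h2 : 0 ≤ nn G F0 φ := by
      unfold nn
      exact integral_nonneg fun z => by positivity
    have h3 : 0 ≤ R ^ (-1 : ℝ) := Real.rpow_nonneg (by linarith) _
    have h5 : 0 ≤ nn G F0 (fun z => uE f' φ z - φ z) := by
      unfold nn
      exact integral_nonneg fun z => by positivity
    calc nP G r0 {(1 : Γ)} 2 R (QF G χ ch ζ R (fun z => uE f' φ z - φ z))
        ≤ (1 + R ^ (-(1 / 4) : ℝ)) * nn G F0 (fun z => uE f' φ z - φ z) := h1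
      _ ≤ 2 * nn G F0 (fun z => uE f' φ z - φ z) := mul_le_mul_of_nonneg_right (by linarith) h5
      _ ≤ 2 * (R ^ (-1 : ℝ) * nn G F0 φ) := by linarith
      _ = 2 * R ^ (-1 : ℝ) * nn G F0 φ := by ring

end

end Pool.Agent.VD
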